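import Pool.Agent.T6.H93.BS.Poly

/-! A bound for the smallest exponent `k` at which a system of linear equations in one unknown of
`ℤ[1/n]`, with coefficients polynomials in `n ^ k`, is solvable. -/

set_option autoImplicit false

namespace Pool.Agent.T6.H93.BS

open Polynomial

/-- the ring `ℤ[1/n]`, as a predicate on the rational numbers -/
def InD (n : ℤ) (q : ℚ) : Prop := ∃ (s : ℕ) (z : ℤ), (n : ℚ) ^ s * q = z

theorem gcd_part {n c a : ℤ} {k s : ℕ} (hk : c.natAbs ≤ k) (hc : c ≠ 0)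
    (ha : n ^ k ∣ a - c) : Nat.gcd a.natAbs (n ^ s).natAbs ∣ c.natAbs := by
  rw [Nat.dvd_iff_prime_pow_dvd_dvd]
  intro p j hp hj
  by_contra hcon
  have hex : ∃ b, ¬ p ^ b ∣ c.natAbs := ⟨j, hcon⟩
  classical
  set b := Nat.find hex with hb
  have hb1 : ¬ p ^ b ∣ c.natAbs := Nat.find_spec hex
  have hbj : b ≤ j := Nat.find_min' hex hcon
  have hb0 : b ≠ 0 := by
    intro h0
    rw [h0, pow_zero] at hb1
    exact hb1 (one_dvd _)
  obtain ⟨b', hb'⟩ := Nat.exists_eq_succ_of_ne_zero hb0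
  have hb2 : p ^ b' ∣ c.natAbs := by
    by_contra h0
    have := Nat.find_min' hex h0
    omega
  have hb3 : p ^ b' ≤ c.natAbs := Nat.le_of_dvd (Int.natAbs_pos.2 hc) hb2
  have hb4 : b' < p ^ b' := Nat.lt_pow_self hp.one_lt
  have hbk : b ≤ k := by omega
  have hg : p ^ b ∣ Nat.gcd a.natAbs (n ^ s).natAbs := (pow_dvd_pow p hbj).trans hj
  have hga : p ^ b ∣ a.natAbs := hg.trans (Nat.gcd_dvd_left _ _)
  have hgn : p ^ b ∣ (n ^ s).natAbs := hg.trans (Nat.gcd_dvd_right _ _)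
  have hpn : p ∣ n.natAbs := by
    have h1 : p ∣ p ^ b := dvd_pow_self p hb0
    have h2 := h1.trans hgn
    rw [Int.natAbs_pow] at h2
    exact hp.dvd_of_dvd_pow h2
  have hpk : ((p ^ b : ℕ) : ℤ) ∣ n ^ k := by
    have h1 : p ^ b ∣ n.natAbs ^ k := (pow_dvd_pow_of_dvd hpn b).trans (pow_dvd_pow _ hbk)
    rw [← Int.natAbs_pow] at h1
    exact Int.natCast_dvd.2 h1
  have h3 : ((p ^ b : ℕ) : ℤ) ∣ a := Int.natCast_dvd.2 hga
  have h4 : ((p ^ b : ℕ) : ℤ) ∣ c := by
    have := dvd_sub h3 (hpk.trans ha)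
    simpa using this
  exact hb1 (Int.natCast_dvd.1 h4)

theorem dvd_part {n c a q z : ℤ} {k s : ℕ} (hk : c.natAbs ≤ k) (hc : c ≠ 0)
    (ha : n ^ k ∣ a - c) (h : a * z = n ^ s * q) : a ∣ c * q := by
  have h1 := gcd_part (s := s) hk hc ha
  have h2 : a.natAbs ∣ (n ^ s).natAbs * q.natAbs := by
    rw [← Int.natAbs_mul, ← h, Int.natAbs_mul]
    exact dvd_mul_right _ _
  have h3 : a.natAbs ∣ Nat.gcd a.natAbs (n ^ s).natAbs * q.natAbs :=
    (Nat.dvd_gcd_mul_iff_dvd_mul).2 h2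
  have h4 : a.natAbs ∣ c.natAbs * q.natAbs := h3.trans (Nat.mul_dvd_mul_right h1 _)
  rw [← Int.natAbs_mul] at h4
  exact Int.natAbs_dvd_natAbs.1 h4

theorem pigeon (n e : ℤ) (he : e ≠ 0) (K : ℕ) :
    ∃ i j : ℕ, K ≤ i ∧ i < j ∧ j ≤ K + e.natAbs ∧ e ∣ n ^ j - n ^ i := by
  have : NeZero e.natAbs := ⟨Int.natAbs_ne_zero.2 he⟩
  have hcard : Fintype.card (ZMod e.natAbs) < Fintype.card (Fin (e.natAbs + 1)) := by
    rw [ZMod.card, Fintype.card_fin]; omega
  obtain ⟨x, y, hxy, h⟩ := Fintype.exists_ne_map_eq_of_card_lt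
    (fun i : Fin (e.natAbs + 1) => ((n ^ (K + (i : ℕ)) : ℤ) : ZMod e.natAbs)) hcard
  have key : ∀ x y : Fin (e.natAbs + 1), (x : ℕ) < y →
      ((n ^ (K + (x : ℕ)) : ℤ) : ZMod e.natAbs) = ((n ^ (K + (y : ℕ)) : ℤ) : ZMod e.natAbs) →
      ∃ i j : ℕ, K ≤ i ∧ i < j ∧ j ≤ K + e.natAbs ∧ e ∣ n ^ j - n ^ i := by
    intro x y hxy h
    refine ⟨K + x, K + y, by omega, by omega, by have := y.2; omega, ?_⟩
    have h1 := (ZMod.intCast_eq_intCast_iff_dvd_sub _ _ _).1 h
    exact Int.natAbs_dvd.1 h1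
  rcases lt_or_gt_of_ne (fun hh : (x : ℕ) = y => hxy (Fin.ext hh)) with h1 | h1
  · exact key x y h1 h
  · exact key y x h1 h.symm

/-- The bound beyond which the polynomials behave regularly. -/
def K1 (H : ℕ) (d : ℕ) : ℕ := H + (2 * H) ^ (d + 1) * H ^ 2 + 2 * H ^ 2

/-- The bound for the smallest solution. -/
def K0 (H : ℕ) (d : ℕ) : ℕ := K1 H d + H ^ (d + 2)

theorem lt_abs_pow {n : ℤ} (hn : 2 ≤ |n|) (k : ℕ) : (k : ℤ) < |n ^ k| := by
  rw [abs_pow]
  calc (k : ℤ) < 2 ^ k := by exact_mod_cast Nat.lt_two_pow_self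
    _ ≤ |n| ^ k := pow_le_pow_left₀ (by norm_num) hn k

theorem bound {n : ℤ} (hn : 2 ≤ |n|) {ι : Type} (P Q : ι → ℤ[X]) (H d : ℕ) (hH : 1 ≤ H)
    (hQd : ∀ i, (Q i).natDegree ≤ d)
    (hPn : ∀ i, nrm (P i) ≤ H) (hQn : ∀ i, nrm (Q i) ≤ H)
    (h : ∃ k : ℕ, ∃ r : ℚ, InD n r ∧
      ∀ i, (((P i).eval (n ^ k) : ℤ) : ℚ) * r + (((Q i).eval (n ^ k) : ℤ) : ℚ) = 0) :
    ∃ k : ℕ, k ≤ K0 H d ∧ ∃ r : ℚ, InD n r ∧
      ∀ i, (((P i).eval (n ^ k) : ℤ) : ℚ) * r + (((Q i).eval (n ^ k) : ℤ) : ℚ) = 0 := by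
  classical
  by_contra hcon
  push Not at hcon
  set k := Nat.find h with hk
  obtain ⟨r, hrD, hr⟩ := Nat.find_spec h
  rw [← hk] at hr
  have hkK : K0 H d < k := by
    by_contra h0
    obtain ⟨i, hi⟩ := hcon k (not_lt.1 h0) r hrD
    exact hi (hr i)
  have hH1 : (1 : ℤ) ≤ H := by exact_mod_cast hH
  have hHK : H ≤ K1 H d := by unfold K1; omega
  have hKK : K1 H d ≤ K0 H d := by unfold K0; omega
  have hn0 : n ≠ 0 := by rintro rfl; norm_num at hn
  have hnq : (n : ℚ) ≠ 0 := by exact_mod_cast hn0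
  have hbig : ∀ k' : ℕ, K1 H d ≤ k' → ((K1 H d : ℕ) : ℤ) < |n ^ k'| := fun k' hk' =>
    lt_of_le_of_lt (by exact_mod_cast hk') (lt_abs_pow hn k')
  by_cases hP : ∀ i, P i = 0
  · have hQ0 : ∀ i, Q i = 0 := by
      intro i
      by_contra hQ
      have h1 := eval_ne_zero hQ (y := n ^ k) (lt_of_le_of_lt (hQn i)
        (lt_of_le_of_lt (by exact_mod_cast hHK) (hbig k (by omega))))
      have h2 := hr i
      rw [hP i] at h2
      simp only [Polynomial.eval_zero, Int.cast_zero, zero_mul, zero_add] at h2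
      exact h1 (by exact_mod_cast h2)
    obtain ⟨i, hi⟩ := hcon 0 (Nat.zero_le _) 0 ⟨0, 0, by simp⟩
    exact hi (by simp [hP i, hQ0 i])
  · push Not at hP
    obtain ⟨i0, hi0⟩ := hP
    obtain ⟨v, P', hPv, hc⟩ := exists_X_pow hi0
    set c := P'.coeff 0 with hcdef
    have hP'0 : P' ≠ 0 := by
      rintro rfl
      exact hc (by simp [hcdef])
    have hnP' : nrm P' ≤ H := by
      have := hPn i0
      rwa [hPv, nrm_X_pow_mul] at this
    have hcH : |c| ≤ H := (abs_coeff_le P' 0).trans hnP'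
    have hlH : |P'.leadingCoeff| ≤ H := (abs_coeff_le P' _).trans hnP'
    have hl0 : P'.leadingCoeff ≠ 0 := Polynomial.leadingCoeff_ne_zero.2 hP'0
    have hQdeg : (C c * Q i0).degree < ((d + 1 : ℕ) : WithBot ℕ) := by
      rw [Polynomial.degree_C_mul hc]
      refine lt_of_le_of_lt (Polynomial.degree_le_natDegree) ?_
      exact_mod_cast Nat.lt_succ_of_le (hQd i0)
    obtain ⟨N, D, R, hN, hE, hRdeg, hRn⟩ := pdiv P' hP'0 (d + 1) (C c * Q i0) hQdeg
    have hRn' : nrm R ≤ (2 * H) ^ (d + 1) * (H : ℤ) ^ 2 := by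
      have h1 : nrm (C c * Q i0) ≤ (H : ℤ) ^ 2 := by
        rw [nrm_C_mul, sq]
        exact mul_le_mul hcH (hQn i0) (nrm_nonneg _) (by omega)
      have h2 : (2 * nrm P') ^ N ≤ (2 * (H : ℤ)) ^ N :=
        pow_le_pow_left₀ (by have := nrm_nonneg P'; omega) (by omega) N
      have h3 : (2 * (H : ℤ)) ^ N ≤ (2 * (H : ℤ)) ^ (d + 1) :=
        pow_le_pow_right₀ (by omega) hN
      exact hRn.trans (mul_le_mul (h2.trans h3) h1 (nrm_nonneg _) (by positivity))
    have hK1z : ((K1 H d : ℕ) : ℤ) = H + (2 * H) ^ (d + 1) * H ^ 2 + 2 * H ^ 2 := by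
      unfold K1; push_cast; ring
    have hPR : ∀ k' : ℕ, K1 H d ≤ k' → nrm P' + nrm R < |n ^ k'| := by
      intro k' hk'
      refine lt_of_le_of_lt ?_ (hbig k' hk')
      rw [hK1z]
      have : (0 : ℤ) ≤ 2 * H ^ 2 := by positivity
      linarith
    have hP'ne : ∀ k' : ℕ, K1 H d ≤ k' → P'.eval (n ^ k') ≠ 0 := fun k' hk' =>
      eval_ne_zero hP'0 (by have := hPR k' hk'; have := nrm_nonneg R; omega)
    -- the equation at `k`
    obtain ⟨s, z, hz⟩ := hrD
    set y : ℤ := n ^ k with hy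
    have hkK1 : K1 H d ≤ k := by omega
    have e1 : P'.eval y * (y ^ v * z) = n ^ s * (-(Q i0).eval y) := by
      have h1 := hr i0
      rw [hPv, Polynomial.eval_mul, Polynomial.eval_pow, Polynomial.eval_X] at h1
      have h2 : ((P'.eval y * (y ^ v * z) : ℤ) : ℚ) = ((n ^ s * (-(Q i0).eval y) : ℤ) : ℚ) := by
        push_cast at h1 ⊢
        rw [← hz]
        linear_combination ((n : ℚ) ^ s) * h1
      exact_mod_cast h2
    have e2 : P'.eval y ∣ c * (-(Q i0).eval y) := by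
      refine dvd_part (k := k) (s := s) ?_ hc (dvd_eval_sub P' y) e1
      have : (c.natAbs : ℤ) ≤ H := by rw [Int.natCast_natAbs]; exact hcH
      have : c.natAbs ≤ H := by exact_mod_cast this
      omega
    have e3 : P'.leadingCoeff ^ N * (c * (Q i0).eval y) = P'.eval y * D.eval y + R.eval y := by
      have h1 := congrArg (Polynomial.eval y) hE
      simpa [Polynomial.eval_mul, Polynomial.eval_add] using h1
    have e4 : P'.eval y ∣ R.eval y := by
      have h1 : P'.eval y ∣ c * (Q i0).eval y := by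
        have := (dvd_neg (a := P'.eval y) (b := c * (-(Q i0).eval y))).2 e2
        simpa using this
      have h2 : R.eval y = P'.leadingCoeff ^ N * (c * (Q i0).eval y) - P'.eval y * D.eval y := by
        rw [e3]; ring
      rw [h2]
      exact dvd_sub (h1.mul_left _) (dvd_mul_right _ _)
    have hR0 : R = 0 := by
      by_contra hR
      have h0 : nrm P' + nrm R < |y| := hPR k hkK1
      have h1 : R.eval y ≠ 0 := eval_ne_zero hR (by have := nrm_nonneg P'; omega)
      have h2 := abs_eval_lt hP'0 hRdeg h0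
      have h3 := Int.le_of_dvd (abs_pos.2 h1) ((abs_dvd_abs _ _).2 e4)
      omega
    set e : ℤ := P'.leadingCoeff ^ N * c with he
    have he0 : e ≠ 0 := mul_ne_zero (pow_ne_zero _ hl0) hc
    have hEe : C e * Q i0 = P' * D := by
      rw [hR0, add_zero] at hE
      rw [← hE, he, Polynomial.C_mul]; ring
    have heH : e.natAbs ≤ H ^ (d + 2) := by
      have h1 : |e| ≤ (H : ℤ) ^ (d + 2) := by
        rw [he, abs_mul, abs_pow]
        calc |P'.leadingCoeff| ^ N * |c| ≤ (H : ℤ) ^ N * H :=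
              mul_le_mul (pow_le_pow_left₀ (abs_nonneg _) hlH N) hcH (abs_nonneg _)
                (by positivity)
          _ = (H : ℤ) ^ (N + 1) := (pow_succ _ _).symm
          _ ≤ (H : ℤ) ^ (d + 2) := pow_le_pow_right₀ hH1 (by omega)
      have h2 : (e.natAbs : ℤ) ≤ ((H ^ (d + 2) : ℕ) : ℤ) := by
        rw [Int.natCast_natAbs]; push_cast; exact h1
      exact_mod_cast h2
    have hed : e ∣ n ^ s * D.eval y := by
      have h1 : e * (Q i0).eval y = P'.eval y * D.eval y := by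
        have := congrArg (Polynomial.eval y) hEe
        simpa [Polynomial.eval_mul] using this
      have h2 : P'.eval y * (e * -(y ^ v * z)) = P'.eval y * (n ^ s * D.eval y) := by
        linear_combination (-e) * e1 + (n ^ s) * h1
      have h3 := mul_left_cancel₀ (hP'ne k hkK1) h2
      exact ⟨_, h3.symm⟩
    -- a smaller exponent
    obtain ⟨i, j, hi, hij, hj, hdvd⟩ := pigeon n e he0 (K1 H d)
    have hjk : j ≤ k := by
      have : K0 H d = K1 H d + H ^ (d + 2) := rfl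
      omega
    set k' := k - j + i with hk'
    have hk'k : k' < k := by omega
    have hk'K : K1 H d ≤ k' := by omega
    set y' : ℤ := n ^ k' with hy'
    have hy'0 : y' ≠ 0 := pow_ne_zero _ hn0
    have hyy : e ∣ y' - y := by
      have h1 : y' - y = -(n ^ (k - j) * (n ^ j - n ^ i)) := by
        have h2 : y = n ^ (k - j) * n ^ j := by
          rw [hy, ← pow_add]; congr 1; omega
        rw [h2, hy', hk', pow_add]; ring
      rw [h1, dvd_neg]
      exact hdvd.mul_left _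
    have hed' : e ∣ n ^ s * D.eval y' := by
      have h1 : e ∣ D.eval y' - D.eval y := hyy.trans (Polynomial.sub_dvd_eval_sub y' y D)
      have h2 : n ^ s * D.eval y' = n ^ s * D.eval y + n ^ s * (D.eval y' - D.eval y) := by ring
      rw [h2]
      exact dvd_add hed (h1.mul_left _)
    obtain ⟨w, hw⟩ := hed'
    have hy'q : (y' : ℚ) ≠ 0 := by exact_mod_cast hy'0
    have heq : (e : ℚ) ≠ 0 := by exact_mod_cast he0
    set r' : ℚ := -(w : ℚ) / ((n : ℚ) ^ s * (y' : ℚ) ^ v) with hr'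
    have f1 : (((P i0).eval y' : ℤ) : ℚ) * r' + (((Q i0).eval y' : ℤ) : ℚ) = 0 := by
      have h1 : (e : ℚ) * (((Q i0).eval y' : ℤ) : ℚ) = ((P'.eval y' : ℤ) : ℚ) * ((D.eval y' : ℤ) : ℚ) := by
        have := congrArg (Polynomial.eval y') hEe
        rw [Polynomial.eval_mul, Polynomial.eval_mul, Polynomial.eval_C] at this
        exact_mod_cast this
      have h2 : (n : ℚ) ^ s * ((D.eval y' : ℤ) : ℚ) = (e : ℚ) * (w : ℚ) := by exact_mod_cast hw
      have h3 : (((P i0).eval y' : ℤ) : ℚ) = (y' : ℚ) ^ v * ((P'.eval y' : ℤ) : ℚ) := by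
        rw [hPv, Polynomial.eval_mul, Polynomial.eval_pow, Polynomial.eval_X]
        push_cast; ring
      have h4 : r' * ((n : ℚ) ^ s * (y' : ℚ) ^ v) = -(w : ℚ) := by
        rw [hr']; field_simp
      have h5 : (e : ℚ) * (n : ℚ) ^ s *
          ((((P i0).eval y' : ℤ) : ℚ) * r' + (((Q i0).eval y' : ℤ) : ℚ)) = 0 := by
        rw [h3]
        linear_combination ((e : ℚ) * ((P'.eval y' : ℤ) : ℚ)) * h4 + ((n : ℚ) ^ s) * h1 +
          ((P'.eval y' : ℤ) : ℚ) * h2
      exact (mul_eq_zero.1 h5).resolve_left (mul_ne_zero heq (pow_ne_zero _ hnq))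
    have hPi0 : (((P i0).eval y' : ℤ) : ℚ) ≠ 0 := by
      rw [hPv, Polynomial.eval_mul, Polynomial.eval_pow, Polynomial.eval_X]
      have := mul_ne_zero (pow_ne_zero v hy'0) (hP'ne k' hk'K)
      exact_mod_cast this
    have hcond : ∃ r : ℚ, InD n r ∧
        ∀ i, (((P i).eval (n ^ k') : ℤ) : ℚ) * r + (((Q i).eval (n ^ k') : ℤ) : ℚ) = 0 := by
      refine ⟨r', ⟨s + k' * v, -w, ?_⟩, fun j => ?_⟩
      · rw [hr', pow_add, pow_mul]
        have : (y' : ℚ) = (n : ℚ) ^ k' := by rw [hy']; push_cast; ring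
        rw [this]
        have : ((n : ℚ) ^ k') ^ v ≠ 0 := pow_ne_zero _ (pow_ne_zero _ hnq)
        push_cast
        field_simp
      · rw [← hy']
        have hT : P i0 * Q j - P j * Q i0 = 0 := by
          by_contra hT
          refine eval_ne_zero hT (y := y) ?_ ?_
          · refine lt_of_le_of_lt ?_ (hbig k hkK1)
            refine (nrm_sub_le _ _).trans ?_
            have h1 := nrm_mul_le (P i0) (Q j)
            have h2 := nrm_mul_le (P j) (Q i0)
            have h3 : nrm (P i0) * nrm (Q j) ≤ (H : ℤ) * H :=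
              mul_le_mul (hPn i0) (hQn j) (nrm_nonneg _) (by omega)
            have h4 : nrm (P j) * nrm (Q i0) ≤ (H : ℤ) * H :=
              mul_le_mul (hPn j) (hQn i0) (nrm_nonneg _) (by omega)
            rw [hK1z]
            have : (0 : ℤ) ≤ (2 * H) ^ (d + 1) * H ^ 2 := by positivity
            nlinarith
          · have h1 : (((P i0 * Q j - P j * Q i0).eval y : ℤ) : ℚ) = 0 := by
              rw [Polynomial.eval_sub, Polynomial.eval_mul, Polynomial.eval_mul]
              push_cast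
              have h2 := hr i0
              have h3 := hr j
              linear_combination (((P i0).eval y : ℤ) : ℚ) * h3 - (((P j).eval y : ℤ) : ℚ) * h2
            exact_mod_cast h1
        have hT' : (((P i0).eval y' : ℤ) : ℚ) * (((Q j).eval y' : ℤ) : ℚ) =
            (((P j).eval y' : ℤ) : ℚ) * (((Q i0).eval y' : ℤ) : ℚ) := by
          have := congrArg (Polynomial.eval y') hT
          rw [Polynomial.eval_sub, Polynomial.eval_mul, Polynomial.eval_mul,
            Polynomial.eval_zero, sub_eq_zero] at this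
          exact_mod_cast this
        have h5 : (((P i0).eval y' : ℤ) : ℚ) *
            ((((P j).eval y' : ℤ) : ℚ) * r' + (((Q j).eval y' : ℤ) : ℚ)) = 0 := by
          linear_combination (((P j).eval y' : ℤ) : ℚ) * f1 + hT'
        exact (mul_eq_zero.1 h5).resolve_left hPi0
    have := Nat.find_min' h hcond
    omega

end Pool.Agent.T6.H93.BS
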