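import Pool.Agent.T6.H93.BS.Solve
import Pool.Agent.T6.H93.BS.Prim

/-! The bounded search is primitive recursive. -/

set_option autoImplicit false

namespace Pool.Agent.T6.H93.BS

open Prim

theorem prim_list_sum {α : Type} [Primcodable α] {f : α → List ℤ} (hf : Primrec f) :
    Primrec (fun a => (f a).sum) := by
  have h : Primrec (fun a => (f a).foldr (fun x s => x + s) 0) :=
    Primrec.list_foldr hf (Primrec.const 0)
      (prim_int_add.comp (Primrec.fst.comp Primrec.snd) (Primrec.snd.comp Primrec.snd)).to₂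
  exact h

theorem prim_zval (n : ℤ) : Primrec (fun p : (ℤ × ℤ) × List Tm => zval n p.1.1 p.1.2 p.2) := by
  refine prim_list_sum (α := (ℤ × ℤ) × List Tm) (f := fun p => p.2.map fun t =>
    t.1 * n ^ (t.2.1 + t.2.2 * p.1.2 + p.1.1).toNat) ?_
  refine Primrec.list_map Primrec.snd ?_
  have hk : Primrec (fun q : ((ℤ × ℤ) × List Tm) × Tm => q.1.1.2) :=
    Primrec.snd.comp (Primrec.fst.comp Primrec.fst)
  have hC : Primrec (fun q : ((ℤ × ℤ) × List Tm) × Tm => q.1.1.1) :=
    Primrec.fst.comp (Primrec.fst.comp Primrec.fst)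
  have h1 : Primrec (fun q : ((ℤ × ℤ) × List Tm) × Tm => q.2.1) := Primrec.fst.comp Primrec.snd
  have h2 : Primrec (fun q : ((ℤ × ℤ) × List Tm) × Tm => q.2.2.1) :=
    Primrec.fst.comp (Primrec.snd.comp Primrec.snd)
  have h3 : Primrec (fun q : ((ℤ × ℤ) × List Tm) × Tm => q.2.2.2) :=
    Primrec.snd.comp (Primrec.snd.comp Primrec.snd)
  exact (prim_int_mul.comp h1 ((prim_npow n).comp (prim_toNat.comp (prim_int_add.comp
    (prim_int_add.comp h2 (prim_int_mul.comp h3 hk)) hC)))).to₂

theorem prim_shf : Primrec (fun p : (ℤ × ℤ) × List Tm => shf p.1.1 p.1.2 p.2) := by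
  refine Primrec.list_map Primrec.snd ?_
  have ha : Primrec (fun q : ((ℤ × ℤ) × List Tm) × Tm => q.1.1.1) :=
    Primrec.fst.comp (Primrec.fst.comp Primrec.fst)
  have hb : Primrec (fun q : ((ℤ × ℤ) × List Tm) × Tm => q.1.1.2) :=
    Primrec.snd.comp (Primrec.fst.comp Primrec.fst)
  have h1 : Primrec (fun q : ((ℤ × ℤ) × List Tm) × Tm => q.2.1) := Primrec.fst.comp Primrec.snd
  have h2 : Primrec (fun q : ((ℤ × ℤ) × List Tm) × Tm => q.2.2.1) :=
    Primrec.fst.comp (Primrec.snd.comp Primrec.snd)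
  have h3 : Primrec (fun q : ((ℤ × ℤ) × List Tm) × Tm => q.2.2.2) :=
    Primrec.snd.comp (Primrec.snd.comp Primrec.snd)
  exact (Primrec.pair h1 (Primrec.pair (prim_int_add.comp h2 ha) (prim_int_add.comp h3 hb))).to₂

theorem prim_stp : Primrec₂ stp := by
  have hdu : Primrec du := Primrec.dom_finite _
  have hdv : Primrec dv := Primrec.dom_finite _
  have hA : Primrec nA := Primrec.dom_finite _
  have hB : Primrec nB := Primrec.dom_finite _
  have l : Primrec (fun p : L2 × Dt => p.1) := Primrec.fst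
  have s1 : Primrec (fun p : L2 × Dt => p.2.1.1) :=
    Primrec.fst.comp (Primrec.fst.comp Primrec.snd)
  have s2 : Primrec (fun p : L2 × Dt => p.2.1.2) :=
    Primrec.snd.comp (Primrec.fst.comp Primrec.snd)
  have s3 : Primrec (fun p : L2 × Dt => p.2.2.1) :=
    Primrec.fst.comp (Primrec.snd.comp Primrec.snd)
  have s4 : Primrec (fun p : L2 × Dt => p.2.2.2) :=
    Primrec.snd.comp (Primrec.snd.comp Primrec.snd)
  have hd : Primrec (fun p : L2 × Dt => (du p.1, dv p.1)) :=
    Primrec.pair (hdu.comp l) (hdv.comp l)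
  exact Primrec.pair (Primrec.pair (prim_int_add.comp s1 (hdu.comp l))
    (prim_int_add.comp s2 (hdv.comp l)))
    (Primrec.pair (Primrec.list_append.comp (hA.comp l) (prim_shf.comp (Primrec.pair hd s3)))
      (Primrec.list_append.comp (hB.comp l) (prim_shf.comp (Primrec.pair hd s4))))

theorem prim_wdt : Primrec wdt := by
  have h2 : Primrec₂ (fun (_ : List L2) (p : L2 × Dt) => stp p.1 p.2) :=
    prim_stp.comp (Primrec.fst.comp Primrec.snd) (Primrec.snd.comp Primrec.snd)
  exact Primrec.list_foldr (f := fun w : List L2 => w) Primrec.id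
    (Primrec.const ((0, 0), ([], []))) h2

theorem prim_Lb : Primrec Lb := by
  have h : Primrec (fun S : List (List L2) => S.flatten.length) :=
    Primrec.list_length.comp Primrec.list_flatten
  exact Primrec.succ.comp h

theorem prim_Kb (n : ℤ) : Primrec (Kb n) := by
  have hL := prim_Lb
  have hd : Primrec (fun S : List (List L2) => 2 * Lb S) :=
    Primrec.nat_mul.comp (Primrec.const 2) hL
  have hH : Primrec (fun S : List (List L2) => Lb S * n.natAbs ^ (2 * Lb S)) :=
    Primrec.nat_mul.comp hL (prim_natpow.comp (Primrec.const _) hd)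
  have c2 : Primrec (fun _ : List (List L2) => 2) := Primrec.const 2
  have hd1 : Primrec (fun S : List (List L2) => 2 * Lb S + 1) := Primrec.succ.comp hd
  have hd2 : Primrec (fun S : List (List L2) => 2 * Lb S + 2) := Primrec.succ.comp hd1
  have hH2 := prim_natpow.comp hH c2
  exact Primrec.nat_add.comp (Primrec.nat_add.comp (Primrec.nat_add.comp hH
    (Primrec.nat_mul.comp (prim_natpow.comp (Primrec.nat_mul.comp c2 hH) hd1) hH2))
    (Primrec.nat_mul.comp c2 hH2)) (prim_natpow.comp hH hd2)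

/-- the value of the terms with the unknown -/
def zA (n : ℤ) (p : ℤ × ℤ) (w : List L2) : ℤ := zval n p.1 p.2 (wdt w).2.1

/-- the value of the terms without the unknown -/
def zB (n : ℤ) (p : ℤ × ℤ) (w : List L2) : ℤ := zval n p.1 p.2 (wdt w).2.2

/-- the value of the exponent -/
def uv (w : List L2) (k : ℤ) : ℤ := (wdt w).1.1 + (wdt w).1.2 * k

theorem gen_z {W P T : Type} [Primcodable W] [Primcodable P] [Primcodable T]
    (z : P × T → ℤ) (hz : Primrec z) (wd : W → T) (hw : Primrec wd) :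
    Primrec₂ (fun (p : P) (w : W) => z (p, wd w)) :=
  hz.comp (Primrec.pair Primrec.fst (hw.comp Primrec.snd))

theorem gen_fs {W A B C : Type} [Primcodable W] [Primcodable A] [Primcodable B] [Primcodable C]
    (wd : W → (A × B) × (C × C)) (hw : Primrec wd) :
    Primrec (fun w => (wd w).1.1) ∧ Primrec (fun w => (wd w).1.2) ∧
    Primrec (fun w => (wd w).2.1) ∧ Primrec (fun w => (wd w).2.2) :=
  ⟨Primrec.fst.comp (Primrec.fst.comp hw), Primrec.snd.comp (Primrec.fst.comp hw),
    Primrec.fst.comp (Primrec.snd.comp hw), Primrec.snd.comp (Primrec.snd.comp hw)⟩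

theorem gen_uv {W : Type} [Primcodable W] (a b : W → ℤ) (ha : Primrec a) (hb : Primrec b) :
    Primrec₂ (fun (w : W) (k : ℤ) => a w + b w * k) :=
  prim_int_add.comp (ha.comp Primrec.fst) (prim_int_mul.comp (hb.comp Primrec.fst) Primrec.snd)

theorem prim_w1 : Primrec (fun w : List L2 => (wdt w).1.1) := by
  have h := gen_fs wdt prim_wdt
  exact h.1

theorem prim_w2 : Primrec (fun w : List L2 => (wdt w).1.2) := by
  have h := gen_fs wdt prim_wdt
  exact h.2.1

theorem prim_w3 : Primrec (fun w : List L2 => (wdt w).2.1) := by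
  have h := gen_fs wdt prim_wdt
  exact h.2.2.1

theorem prim_w4 : Primrec (fun w : List L2 => (wdt w).2.2) := by
  have h := gen_fs wdt prim_wdt
  exact h.2.2.2

theorem prim_zA (n : ℤ) : Primrec₂ (zA n) := by
  have h := gen_z (P := ℤ × ℤ) (T := List Tm) (W := List L2) (fun p => zval n p.1.1 p.1.2 p.2)
  have h1 := h (prim_zval n)
  have h2 := h1 (fun w => (wdt w).2.1)
  have h3 := h2 prim_w3
  exact h3

theorem prim_zB (n : ℤ) : Primrec₂ (zB n) := by
  have h := gen_z (P := ℤ × ℤ) (T := List Tm) (W := List L2) (fun p => zval n p.1.1 p.1.2 p.2)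
  have h1 := h (prim_zval n)
  have h2 := h1 (fun w => (wdt w).2.2)
  have h3 := h2 prim_w4
  exact h3

theorem prim_uv : Primrec₂ uv := by
  have h := gen_uv (fun w : List L2 => (wdt w).1.1) (fun w => (wdt w).1.2)
  have h1 := h prim_w1
  have h2 := h1 prim_w2
  exact h2

theorem Tst_iff (n : ℤ) (p : ℤ × ℤ) (S : List (List L2)) : Tst n p.1 p.2 S ↔
    (∀ w ∈ S, zA n p w ∣ n ^ (zA n p w).natAbs * zB n p w) ∧
    ∀ w ∈ S, ∀ w' ∈ S, zA n p w * zB n p w' = zA n p w' * zB n p w := Iff.rfl

theorem gen_R1 {W : Type} [Primcodable W] (u : W → ℤ → ℤ) (h : Primrec₂ u) :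
    PrimrecRel (fun (w : W) (k : ℤ) => u w k = 0) :=
  Primrec.eq.comp h (Primrec.const 0)

theorem gen_R2 {W P : Type} [Primcodable W] [Primcodable P] (n : ℤ) (A B : P → W → ℤ)
    (hA : Primrec₂ A) (hB : Primrec₂ B) :
    PrimrecRel (fun (w : W) (p : P) => A p w ∣ n ^ (A p w).natAbs * B p w) := by
  have hA' : Primrec (fun q : W × P => A q.2 q.1) := hA.comp Primrec.snd Primrec.fst
  have hB' : Primrec (fun q : W × P => B q.2 q.1) := hB.comp Primrec.snd Primrec.fst
  exact prim_dvd.comp hA' (prim_int_mul.comp ((prim_npow n).comp (prim_natAbs.comp hA')) hB')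

theorem gen_R3 {W P : Type} [Primcodable W] [Primcodable P] (A B : P → W → ℤ)
    (hA : Primrec₂ A) (hB : Primrec₂ B) :
    PrimrecRel (fun (w' : W) (q : W × P) => A q.2 q.1 * B q.2 w' = A q.2 w' * B q.2 q.1) := by
  have hp : Primrec (fun q : W × (W × P) => q.2.2) := Primrec.snd.comp Primrec.snd
  have h2 : Primrec (fun q : W × (W × P) => q.2.1) := Primrec.fst.comp Primrec.snd
  have h1 : Primrec (fun q : W × (W × P) => q.1) := Primrec.fst
  exact Primrec.eq.comp (prim_int_mul.comp (hA.comp hp h2) (hB.comp hp h1))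
    (prim_int_mul.comp (hA.comp hp h1) (hB.comp hp h2))

theorem gen_all {W P : Type} [Primcodable W] [Primcodable P] (R2 : W → P → Prop)
    (R3 : W → W × P → Prop) (h2 : PrimrecRel R2) (h3 : PrimrecRel R3) :
    PrimrecRel (fun (S : List W) (p : P) => (∀ w ∈ S, R2 w p) ∧
      ∀ w ∈ S, ∀ w' ∈ S, R3 w' (w, p)) := by
  have h1 := PrimrecRel.forall_mem_list h2
  have h2 := PrimrecRel.forall_mem_list h3
  have h3 : PrimrecRel (fun (w : W) (p : List W × P) => ∀ w' ∈ p.1, R3 w' (w, p.2)) :=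
    h2.comp (Primrec.fst.comp Primrec.snd)
      (Primrec.pair Primrec.fst (Primrec.snd.comp Primrec.snd))
  have h4 := PrimrecRel.forall_mem_list h3
  have h5 : PrimrecRel (fun (S : List W) (p : P) => ∀ w ∈ S, ∀ w' ∈ S, R3 w' (w, p)) :=
    h4.comp (f := fun q : List W × P => q.1) (g := fun q => q) Primrec.fst Primrec.id
  exact PrimrecPred.and h1 h5

theorem gen_exists_lt {β : Type} [Primcodable β] {R : ℕ → β → Prop} (hf : PrimrecRel R) :
    PrimrecRel fun n y ↦ ∃ x < n, R x y :=
  (hf.exists_mem_list.comp (Primrec.list_range.comp Primrec.fst) Primrec.snd).of_eq (by simp)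

theorem gen_search {W : Type} [Primcodable W] (u : W → ℤ → ℤ) (hu : Primrec₂ u)
    (T : List W → (ℤ × ℤ) → Prop) (hT : PrimrecRel T) (L K : List W → ℕ) (hL : Primrec L)
    (hK : Primrec K) : PrimrecPred (fun S : List W => ∃ j < 2 * K S + 1,
      (∀ w ∈ S, u w ((j : ℤ) - K S) = 0) ∧ T S ((L S : ℤ) * (1 + K S), (j : ℤ) - K S)) := by
  have hk : Primrec (fun q : ℕ × List W => (q.1 : ℤ) - (K q.2 : ℤ)) :=
    prim_int_sub.comp (prim_natCast.comp Primrec.fst)
      (prim_natCast.comp (hK.comp Primrec.snd))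
  have hC : Primrec (fun q : ℕ × List W => (L q.2 : ℤ) * (1 + (K q.2 : ℤ))) :=
    prim_int_mul.comp (prim_natCast.comp (hL.comp Primrec.snd))
      (prim_int_add.comp (Primrec.const 1) (prim_natCast.comp (hK.comp Primrec.snd)))
  have h1 : PrimrecRel (fun (j : ℕ) (S : List W) => ∀ w ∈ S, u w ((j : ℤ) - K S) = 0) :=
    (PrimrecRel.forall_mem_list (gen_R1 u hu)).comp
      (f := fun q : ℕ × List W => q.2) Primrec.snd hk
  have h2 : PrimrecRel (fun (j : ℕ) (S : List W) =>
      T S ((L S : ℤ) * (1 + K S), (j : ℤ) - K S)) :=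
    hT.comp (f := fun q : ℕ × List W => q.2) Primrec.snd (Primrec.pair hC hk)
  have h3 : PrimrecRel (fun (j : ℕ) (S : List W) => (∀ w ∈ S, u w ((j : ℤ) - K S) = 0) ∧
      T S ((L S : ℤ) * (1 + K S), (j : ℤ) - K S)) := PrimrecPred.and h1 h2
  exact (gen_exists_lt h3).comp (f := fun S : List W => 2 * K S + 1) (g := fun S => S)
    (Primrec.succ.comp (Primrec.nat_mul.comp (Primrec.const 2) hK)) Primrec.id

theorem prim_Tst (n : ℤ) : PrimrecRel (fun (S : List (List L2)) (p : ℤ × ℤ) =>
    Tst n p.1 p.2 S) :=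
  (gen_all _ _ (gen_R2 n (zA n) (zB n) (prim_zA n) (prim_zB n))
    (gen_R3 (zA n) (zB n) (prim_zA n) (prim_zB n))).of_eq fun S p => (Tst_iff n p S).symm

/-- the bounded search is primitive recursive -/
theorem prim_search (n : ℤ) : PrimrecPred (fun S : List (List L2) =>
    ∃ j < 2 * Kb n S + 1, (∀ w ∈ S, uv w ((j : ℤ) - Kb n S) = 0) ∧
      Tst n ((Lb S : ℤ) * (1 + Kb n S)) ((j : ℤ) - Kb n S) S) :=
  gen_search uv prim_uv (fun S p => Tst n p.1 p.2 S) (prim_Tst n) Lb (Kb n) prim_Lb (prim_Kb n)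

/-! ### Arbitrary presentations -/

open Pool.Agent.H747BS

/-- translation of a letter -/
def tr {d : ℕ} (c : Fin d → List (Fin 2 × Bool)) : (Fin d ⊕ Unit) × Bool → List L2
  | (Sum.inl i, true) => (c i).map fun l => (Sum.inl l.1, l.2)
  | (Sum.inl i, false) => (FreeGroup.invRev (c i)).map fun l => (Sum.inl l.1, l.2)
  | (Sum.inr u, b) => [(Sum.inr u, b)]

theorem val_nil {d : ℕ} {G : Type} [Group G] (γ : Fin d → G) (g : G) : val γ g [] = 1 := by
  unfold val
  rw [FreeGroup.lift_mk]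
  rfl

theorem val_append {d : ℕ} {G : Type} [Group G] (γ : Fin d → G) (g : G)
    (u v : List ((Fin d ⊕ Unit) × Bool)) : val γ g (u ++ v) = val γ g u * val γ g v := by
  unfold val
  rw [← FreeGroup.mul_mk, map_mul]

theorem val_cons {d : ℕ} {G : Type} [Group G] (γ : Fin d → G) (g : G)
    (l : (Fin d ⊕ Unit) × Bool) (v : List ((Fin d ⊕ Unit) × Bool)) :
    val γ g (l :: v) = val γ g [l] * val γ g v := val_append γ g [l] v

theorem val_inl {d : ℕ} {G : Type} [Group G] (γ : Fin d → G) (g : G)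
    (u : List (Fin d × Bool)) : val γ g (u.map fun l => (Sum.inl l.1, l.2)) =
      FreeGroup.lift γ (FreeGroup.mk u) := by
  unfold val
  rw [FreeGroup.lift_mk, FreeGroup.lift_mk, List.map_map]
  rfl

theorem val_flatMap {d : ℕ} {G : Type} [Group G] (γ2 : Fin 2 → G) (c : Fin d → List (Fin 2 × Bool))
    (γ : Fin d → G) (hγ : ∀ i, γ i = FreeGroup.lift γ2 (FreeGroup.mk (c i))) (g : G)
    (w : List ((Fin d ⊕ Unit) × Bool)) : val γ2 g (w.flatMap (tr c)) = val γ g w := by
  induction w with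
  | nil => rw [List.flatMap_nil, val_nil, val_nil]
  | cons l w ih =>
    rw [List.flatMap_cons, val_append, ih, val_cons γ g l w]
    congr 1
    rcases l with ⟨i | u, b⟩
    · cases b
      · simp only [tr]
        rw [val_inl, ← FreeGroup.inv_mk, map_inv, ← hγ]
        simp [val, FreeGroup.lift_mk]
      · simp only [tr]
        rw [val_inl, ← hγ]
        simp [val, FreeGroup.lift_mk]
    · simp only [tr]
      simp [val, FreeGroup.lift_mk]

theorem lift_γ0 (n : ℤ) (x : FreeGroup (Fin 2)) :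
    FreeGroup.lift (γ0 n) x = PresentedGroup.mk ({rel n} : Set (FreeGroup (Fin 2))) x := by
  have : FreeGroup.lift (γ0 n) = PresentedGroup.mk ({rel n} : Set (FreeGroup (Fin 2))) := by
    refine FreeGroup.ext_hom _ _ fun i => ?_
    rw [FreeGroup.lift_apply_of]
    rfl
  rw [this]

theorem comp_main (n : ℤ) [Hyp n] {d : ℕ} {G' : Type} [Group G'] (γ : Fin d → G')
    (e : G' ≃* G n) : PrimrecPred (fun S : List (List ((Fin d ⊕ Unit) × Bool)) =>
      ∃ g : G', ∀ w ∈ S, val γ g w = 1) := by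
  have hc : ∀ i : Fin d, ∃ u : List (Fin 2 × Bool),
      e (γ i) = FreeGroup.lift (γ0 n) (FreeGroup.mk u) := by
    intro i
    obtain ⟨x, hx⟩ := QuotientGroup.mk_surjective (e (γ i))
    refine ⟨x.toWord, ?_⟩
    rw [FreeGroup.mk_toWord, lift_γ0, ← hx]
    rfl
  choose c hc using hc
  have h1 : ∀ S : List (List ((Fin d ⊕ Unit) × Bool)),
      (∃ j < 2 * Kb n (S.map fun w => w.flatMap (tr c)) + 1,
        (∀ w ∈ (S.map fun w => w.flatMap (tr c)), uv w
          ((j : ℤ) - Kb n (S.map fun w => w.flatMap (tr c))) = 0) ∧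
        Tst n ((Lb (S.map fun w => w.flatMap (tr c)) : ℤ) *
          (1 + Kb n (S.map fun w => w.flatMap (tr c))))
          ((j : ℤ) - Kb n (S.map fun w => w.flatMap (tr c)))
          (S.map fun w => w.flatMap (tr c))) ↔
      ∃ g : G', ∀ w ∈ S, val γ g w = 1 := by
    intro S
    refine (sat_iff_bounded n (S.map fun w => w.flatMap (tr c))).symm.trans ?_
    have key : ∀ (g : G') (w : List ((Fin d ⊕ Unit) × Bool)),
        val (γ0 n) (e g) (w.flatMap (tr c)) = 1 ↔ val γ g w = 1 := by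
      intro g w
      rw [val_flatMap (γ0 n) c (fun i => e (γ i)) hc]
      have := map_val (e : G' →* G n) γ g w
      simp only [MonoidHom.coe_coe] at this
      rw [← this]
      exact map_eq_one_iff e e.injective
    constructor
    · rintro ⟨g, hg⟩
      refine ⟨e.symm g, fun w hw => ?_⟩
      rw [← key, MulEquiv.apply_symm_apply]
      exact hg _ (List.mem_map_of_mem hw)
    · rintro ⟨g, hg⟩
      refine ⟨e g, fun w hw => ?_⟩
      rw [List.mem_map] at hw
      obtain ⟨w', hw', rfl⟩ := hw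
      exact (key g w').2 (hg w' hw')
  have htr : Primrec (tr c) := Primrec.dom_finite _
  have hT : Primrec (fun S : List (List ((Fin d ⊕ Unit) × Bool)) =>
      S.map fun w => w.flatMap (tr c)) :=
    Primrec.list_map Primrec.id (Primrec.list_flatMap Primrec.snd (htr.comp Primrec.snd).to₂).to₂
  exact ((prim_search n).comp hT).of_eq h1

end Pool.Agent.T6.H93.BS
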