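import Mathlib

/-! Integer polynomials: the sum of the absolute values of the coefficients, pseudo-division with
control of this norm, and sizes of values. -/

set_option autoImplicit false

namespace Pool.Agent.T6.H93.BS

open Polynomial

/-- the sum of the absolute values of the coefficients -/
noncomputable def nrm (p : ℤ[X]) : ℤ := ∑ i ∈ p.support, |p.coeff i|

theorem nrm_nonneg (p : ℤ[X]) : 0 ≤ nrm p := Finset.sum_nonneg fun _ _ => abs_nonneg _

theorem nrm_eq (p : ℤ[X]) (s : Finset ℕ) (h : p.support ⊆ s) : nrm p = ∑ i ∈ s, |p.coeff i| := by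
  unfold nrm
  refine Finset.sum_subset h fun i _ hi => ?_
  rw [Polynomial.notMem_support_iff] at hi
  rw [hi, abs_zero]

theorem abs_coeff_le (p : ℤ[X]) (i : ℕ) : |p.coeff i| ≤ nrm p := by
  by_cases h : i ∈ p.support
  · exact Finset.single_le_sum (f := fun i => |p.coeff i|) (fun _ _ => abs_nonneg _) h
  · rw [Polynomial.notMem_support_iff] at h
    rw [h, abs_zero]
    exact nrm_nonneg p

@[simp] theorem nrm_zero : nrm 0 = 0 := by simp [nrm]

theorem nrm_add_le (p q : ℤ[X]) : nrm (p + q) ≤ nrm p + nrm q := by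
  classical
  have h1 := nrm_eq p (p.support ∪ q.support) Finset.subset_union_left
  have h2 := nrm_eq q (p.support ∪ q.support) Finset.subset_union_right
  have h3 := nrm_eq (p + q) (p.support ∪ q.support) Polynomial.support_add
  rw [h1, h2, h3, ← Finset.sum_add_distrib]
  refine Finset.sum_le_sum fun i _ => ?_
  rw [Polynomial.coeff_add]
  exact abs_add_le _ _

theorem nrm_neg (p : ℤ[X]) : nrm (-p) = nrm p := by
  unfold nrm
  rw [Polynomial.support_neg]
  refine Finset.sum_congr rfl fun i _ => ?_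
  rw [Polynomial.coeff_neg, abs_neg]

theorem nrm_sub_le (p q : ℤ[X]) : nrm (p - q) ≤ nrm p + nrm q := by
  rw [sub_eq_add_neg]
  have := nrm_add_le p (-q)
  rwa [nrm_neg] at this

theorem nrm_C_mul (a : ℤ) (p : ℤ[X]) : nrm (C a * p) = |a| * nrm p := by
  have h3 : (C a * p).support ⊆ p.support := by
    intro i hi
    rw [Polynomial.mem_support_iff] at hi ⊢
    rw [Polynomial.coeff_C_mul] at hi
    exact right_ne_zero_of_mul hi
  rw [nrm_eq _ _ h3, nrm, Finset.mul_sum]
  refine Finset.sum_congr rfl fun i _ => ?_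
  rw [Polynomial.coeff_C_mul, abs_mul]

theorem nrm_X_mul (p : ℤ[X]) : nrm (X * p) = nrm p := by
  by_cases hp : p = 0
  · rw [hp, mul_zero]
  have h1 : p.support ⊆ Finset.range (p.natDegree + 1) := by
    exact Polynomial.supp_subset_range_natDegree_succ
  have h2 : (X * p).support ⊆ Finset.range (p.natDegree + 2) := by
    have := Polynomial.supp_subset_range_natDegree_succ (p := X * p)
    rwa [Polynomial.natDegree_X_mul hp] at this
  rw [nrm_eq _ _ h1, nrm_eq _ _ h2, Finset.sum_range_succ']
  simp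

theorem nrm_X_pow_mul (k : ℕ) (p : ℤ[X]) : nrm (X ^ k * p) = nrm p := by
  induction k with
  | zero => simp
  | succ k ih => rw [pow_succ', mul_assoc, nrm_X_mul, ih]

theorem nrm_sum_le {ι : Type} (s : Finset ι) (f : ι → ℤ[X]) :
    nrm (∑ i ∈ s, f i) ≤ ∑ i ∈ s, nrm (f i) := by
  classical
  induction s using Finset.induction_on with
  | empty => simp
  | insert a s ha ih =>
    rw [Finset.sum_insert ha, Finset.sum_insert ha]
    exact (nrm_add_le _ _).trans (by linarith)

theorem nrm_mul_le (p q : ℤ[X]) : nrm (p * q) ≤ nrm p * nrm q := by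
  have h : p * q = ∑ i ∈ p.support, C (p.coeff i) * (X ^ i * q) := by
    conv_lhs => rw [Polynomial.as_sum_support_C_mul_X_pow p]
    rw [Finset.sum_mul]
    refine Finset.sum_congr rfl fun i _ => by ring
  rw [h]
  refine (nrm_sum_le _ _).trans ?_
  rw [nrm, Finset.sum_mul]
  refine Finset.sum_le_sum fun i _ => ?_
  rw [nrm_C_mul, nrm_X_pow_mul]

/-- Splitting off a power of `X`. -/
theorem exists_X_pow {p : ℤ[X]} (hp : p ≠ 0) :
    ∃ (v : ℕ) (q : ℤ[X]), p = X ^ v * q ∧ q.coeff 0 ≠ 0 := by
  obtain ⟨q, h1, h2⟩ := Polynomial.exists_eq_pow_rootMultiplicity_mul_and_not_dvd p hp 0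
  refine ⟨_, q, by simpa using h1, fun h => h2 ?_⟩
  rw [Polynomial.C_0, sub_zero]
  exact Polynomial.X_dvd_iff.2 h

theorem dvd_eval_sub (p : ℤ[X]) (y : ℤ) : y ∣ p.eval y - p.coeff 0 := by
  have h := Polynomial.sub_dvd_eval_sub y 0 p
  rwa [sub_zero, ← Polynomial.coeff_zero_eq_eval_zero] at h

/-- A large integer is not a root. -/
theorem eval_ne_zero {p : ℤ[X]} (hp : p ≠ 0) {y : ℤ} (hy : nrm p < |y|) : p.eval y ≠ 0 := by
  intro h
  obtain ⟨v, q, h1, h2⟩ := exists_X_pow hp
  have hn : nrm p = nrm q := by rw [h1, nrm_X_pow_mul]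
  have hy0 : y ≠ 0 := by
    rintro rfl
    rw [abs_zero] at hy
    exact absurd (nrm_nonneg p) (not_le.2 hy)
  rw [h1, Polynomial.eval_mul, Polynomial.eval_pow, Polynomial.eval_X] at h
  have h3 : q.eval y = 0 := (mul_eq_zero.1 h).resolve_left (pow_ne_zero _ hy0)
  have h4 := dvd_eval_sub q y
  rw [h3, zero_sub, dvd_neg] at h4
  have h5 := Int.le_of_dvd (abs_pos.2 h2) ((abs_dvd_abs _ _).2 h4)
  have h6 := abs_coeff_le q 0
  linarith

theorem abs_eval_le (p : ℤ[X]) (y : ℤ) (hy : 1 ≤ |y|) (m : ℕ) (hm : p.natDegree ≤ m) :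
    |p.eval y| ≤ nrm p * |y| ^ m := by
  rw [Polynomial.eval_eq_sum, Polynomial.sum_def, nrm, Finset.sum_mul]
  refine (Finset.abs_sum_le_sum_abs _ _).trans (Finset.sum_le_sum fun i hi => ?_)
  rw [abs_mul, abs_pow]
  refine mul_le_mul_of_nonneg_left ?_ (abs_nonneg _)
  exact pow_le_pow_right₀ hy ((Polynomial.le_natDegree_of_mem_supp i hi).trans hm)

theorem nrm_eraseLead_le (p : ℤ[X]) : nrm p.eraseLead ≤ nrm p := by
  have h : p.eraseLead.support ⊆ p.support := by
    rw [Polynomial.eraseLead_support]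
    exact Finset.erase_subset _ _
  rw [nrm_eq _ _ h, nrm]
  refine Finset.sum_le_sum fun i _ => ?_
  rw [Polynomial.eraseLead_coeff]
  split_ifs
  · simp
  · exact le_rfl

/-- For large arguments the polynomial of larger degree has the larger value. -/
theorem abs_eval_lt {P R : ℤ[X]} (hP : P ≠ 0) (h : R.degree < P.degree) {y : ℤ}
    (hy : nrm P + nrm R < |y|) : |R.eval y| < |P.eval y| := by
  have h1 : 0 ≤ nrm P := nrm_nonneg P
  have h2 : 0 ≤ nrm R := nrm_nonneg R
  have hy1 : 1 ≤ |y| := by linarith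
  have hl : P.leadingCoeff ≠ 0 := Polynomial.leadingCoeff_ne_zero.2 hP
  have hl1 : 1 ≤ |P.leadingCoeff| := Int.one_le_abs hl
  by_cases hd : P.natDegree = 0
  · have hR : R = 0 := by
      rw [Polynomial.degree_eq_natDegree hP, hd] at h
      exact Polynomial.degree_eq_bot.1 (Nat.WithBot.lt_zero_iff.1 (by simpa using h))
    rw [hR, Polynomial.eval_zero, abs_zero, abs_pos]
    exact eval_ne_zero hP (by linarith)
  · obtain ⟨d, hd'⟩ : ∃ d, P.natDegree = d + 1 := Nat.exists_eq_succ_of_ne_zero hd
    have e1 : P.eraseLead.natDegree ≤ d := by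
      have := Polynomial.eraseLead_natDegree_le P
      omega
    have e2 : R.natDegree ≤ d := by
      rw [Polynomial.degree_eq_natDegree hP, hd'] at h
      by_cases hR : R = 0
      · rw [hR]; simp
      · rw [Polynomial.degree_eq_natDegree hR] at h
        have : R.natDegree < d + 1 := by exact_mod_cast h
        omega
    have e3 := abs_eval_le P.eraseLead y hy1 d e1
    have e4 := abs_eval_le R y hy1 d e2
    have e5 := nrm_eraseLead_le P
    have e6 : P.eval y = P.eraseLead.eval y + P.leadingCoeff * y ^ (d + 1) := by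
      conv_lhs => rw [← Polynomial.eraseLead_add_C_mul_X_pow P]
      rw [Polynomial.eval_add, Polynomial.eval_mul, Polynomial.eval_C, Polynomial.eval_pow,
        Polynomial.eval_X, hd']
    have hyd : 0 < |y| ^ d := pow_pos (by linarith) d
    have e7 : |P.leadingCoeff * y ^ (d + 1)| ≥ |y| * |y| ^ d := by
      rw [abs_mul, abs_pow, pow_succ']
      nlinarith [mul_pos (lt_of_lt_of_le zero_lt_one hy1) hyd]
    have e8 : |P.leadingCoeff * y ^ (d + 1)| ≤ |P.eval y| + |P.eraseLead.eval y| := by
      have : P.leadingCoeff * y ^ (d + 1) = P.eval y - P.eraseLead.eval y := by rw [e6]; ring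
      rw [this]
      exact abs_sub _ _
    have e9 : nrm P.eraseLead * |y| ^ d ≤ nrm P * |y| ^ d :=
      mul_le_mul_of_nonneg_right e5 hyd.le
    have e10 : (nrm P + nrm R) * |y| ^ d < |y| * |y| ^ d := mul_lt_mul_of_pos_right hy hyd
    nlinarith

/-- Pseudo-division with control of the norm of the remainder. -/
theorem pdiv (P : ℤ[X]) (hP : P ≠ 0) (e : ℕ) : ∀ Q : ℤ[X], Q.degree < (e : WithBot ℕ) →
    ∃ (N : ℕ) (D R : ℤ[X]), N ≤ e ∧ C (P.leadingCoeff ^ N) * Q = P * D + R ∧
      R.degree < P.degree ∧ nrm R ≤ (2 * nrm P) ^ N * nrm Q := by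
  have hl : P.leadingCoeff ≠ 0 := Polynomial.leadingCoeff_ne_zero.2 hP
  have hlP : |P.leadingCoeff| ≤ nrm P := abs_coeff_le P _
  have hP0 : 0 ≤ nrm P := nrm_nonneg P
  induction e with
  | zero =>
    intro Q hQ
    have hQ0 : Q = 0 := Polynomial.degree_eq_bot.1 (Nat.WithBot.lt_zero_iff.1 (by simpa using hQ))
    refine ⟨0, 0, 0, le_rfl, by simp [hQ0], ?_, by simp [hQ0]⟩
    rw [Polynomial.degree_zero, bot_lt_iff_ne_bot]
    exact fun h => hP (Polynomial.degree_eq_bot.1 h)
  | succ e ih =>
    intro Q hQ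
    by_cases hlt : Q.degree < P.degree
    · exact ⟨0, 0, Q, Nat.zero_le _, by simp, hlt, by simp⟩
    · push Not at hlt
      have hQ0 : Q ≠ 0 := by
        rintro rfl
        rw [Polynomial.degree_zero, le_bot_iff] at hlt
        exact hP (Polynomial.degree_eq_bot.1 hlt)
      set Q₁ := C P.leadingCoeff * Q - C Q.leadingCoeff * (X ^ (Q.natDegree - P.natDegree) * P)
        with hQ₁
      have hnd : P.natDegree ≤ Q.natDegree := Polynomial.natDegree_le_natDegree hlt
      have h1 : Q₁.degree < Q.degree := by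
        have ha : (C P.leadingCoeff * Q).degree = Q.degree := by
          rw [Polynomial.degree_C_mul hl]
        have hb : (C Q.leadingCoeff * (X ^ (Q.natDegree - P.natDegree) * P)).degree =
            Q.degree := by
          rw [Polynomial.degree_C_mul (Polynomial.leadingCoeff_ne_zero.2 hQ0),
            Polynomial.degree_mul, Polynomial.degree_X_pow, Polynomial.degree_eq_natDegree hP,
            Polynomial.degree_eq_natDegree hQ0]
          norm_cast
          omega
        have hc := Polynomial.degree_sub_lt_left (p := C P.leadingCoeff * Q)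
          (q := C Q.leadingCoeff * (X ^ (Q.natDegree - P.natDegree) * P)) (by rw [ha, hb])
          (mul_ne_zero (Polynomial.C_ne_zero.2 hl) hQ0) (by
            rw [Polynomial.leadingCoeff_mul, Polynomial.leadingCoeff_mul,
              Polynomial.leadingCoeff_mul, Polynomial.leadingCoeff_C, Polynomial.leadingCoeff_C,
              Polynomial.leadingCoeff_X_pow]
            ring)
        rwa [ha] at hc
      have h2 : Q₁.degree < (e : WithBot ℕ) := by
        rw [Polynomial.degree_eq_natDegree hQ0] at hQ h1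
        have : Q.natDegree < e + 1 := by exact_mod_cast hQ
        exact lt_of_lt_of_le h1 (by exact_mod_cast Nat.le_of_lt_succ this)
      obtain ⟨N, D, R, hN, hE, hdeg, hR⟩ := ih Q₁ h2
      refine ⟨N + 1, D + C (P.leadingCoeff ^ N * Q.leadingCoeff) *
        X ^ (Q.natDegree - P.natDegree), R, by omega, ?_, hdeg, ?_⟩
      · have : C (P.leadingCoeff ^ (N + 1)) * Q = C (P.leadingCoeff ^ N) * Q₁ +
            C (P.leadingCoeff ^ N * Q.leadingCoeff) *
              (X ^ (Q.natDegree - P.natDegree) * P) := by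
          rw [hQ₁, pow_succ, Polynomial.C_mul, Polynomial.C_mul]
          ring
        rw [this, hE]
        ring
      · have h3 : nrm Q₁ ≤ 2 * nrm P * nrm Q := by
          refine (nrm_sub_le _ _).trans ?_
          rw [nrm_C_mul, nrm_C_mul, nrm_X_pow_mul]
          have ha : |P.leadingCoeff| * nrm Q ≤ nrm P * nrm Q :=
            mul_le_mul_of_nonneg_right hlP (nrm_nonneg Q)
          have hb : |Q.leadingCoeff| * nrm P ≤ nrm Q * nrm P :=
            mul_le_mul_of_nonneg_right (abs_coeff_le Q _) hP0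
          linarith
        calc nrm R ≤ (2 * nrm P) ^ N * nrm Q₁ := hR
          _ ≤ (2 * nrm P) ^ N * (2 * nrm P * nrm Q) :=
            mul_le_mul_of_nonneg_left h3 (by positivity)
          _ = _ := by ring

end Pool.Agent.T6.H93.BS
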