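import Pool.Agent.T6.H93.BS.Terms

/-! Solvability of one-variable systems over `BS(1,n)` as a bounded search. -/

set_option autoImplicit false

namespace Pool.Agent.T6.H93.BS

open Polynomial Pool.Agent.H747BS

/-- the value of a word in the generators `γ` and one variable -/
def val {d : ℕ} {G : Type} [Group G] (γ : Fin d → G) (g : G)
    (w : List ((Fin d ⊕ Unit) × Bool)) : G :=
  FreeGroup.lift (Sum.elim γ (fun _ => g)) (FreeGroup.mk w)

theorem map_val {d : ℕ} {G H : Type} [Group G] [Group H] (f : G →* H) (γ : Fin d → G) (g : G)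
    (w : List ((Fin d ⊕ Unit) × Bool)) : f (val γ g w) = val (fun i => f (γ i)) (f g) w := by
  unfold val
  have : f.comp (FreeGroup.lift (Sum.elim γ (fun _ : Unit => g))) =
      FreeGroup.lift (Sum.elim (fun i => f (γ i)) (fun _ : Unit => f g)) := by
    refine FreeGroup.ext_hom _ _ fun i => ?_
    rcases i with i | i <;> simp
  exact DFunLike.congr_fun this _

section
variable (n : ℤ) [Hyp n]

/-- the generators of `BS(1,n)` -/
def γ0 : Fin 2 → G n := fun i => PresentedGroup.of i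

theorem val_iff (g : G n) (r : ℚ) (k : ℤ) (hg : rho n g = ⟨r, k⟩) (w : List L2) :
    val (γ0 n) g w = 1 ↔ tval n k (wdt w).2.1 * r + tval n k (wdt w).2.2 = 0 ∧
      (wdt w).1.1 + (wdt w).1.2 * k = 0 := by
  rw [← (rho_inj n).eq_iff, map_one, map_val]
  have h : val (fun i => rho n (γ0 n i)) (rho n g) w = (w.map (lv n r k)).prod := by
    rw [← lift_eq]
    unfold val
    congr 2
    funext i
    rcases i with i | i
    · fin_cases i
      · show rho n (ga n) = _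
        rw [rho_ga]
        ext <;> simp [lv, tval, nA, nB, du, dv, sg]
      · show rho n (gt n) = _
        rw [rho_gt]
        ext <;> simp [lv, tval, nA, nB, du, dv, sg]
    · show rho n g = _
      rw [hg]
      ext <;> simp [lv, tval, nA, nB, du, dv, sg]
  rw [h, prod_lv, Aff.ext_iff]
  rfl

theorem inD_of (g : G n) : InD n (rho n g).x := by
  obtain ⟨i, j, l, rfl⟩ := normal_form n g
  refine ⟨i, l, ?_⟩
  rw [rho_normal]
  have := pow_ne_zero i (ne0 n)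
  field_simp

theorem exists_rho {r : ℚ} (hr : InD n r) (k : ℤ) : ∃ g : G n, rho n g = ⟨r, k⟩ := by
  obtain ⟨s, z, hz⟩ := hr
  refine ⟨((gt n) ^ s)⁻¹ * (ga n) ^ z * (gt n) ^ ((s : ℤ) + k), ?_⟩
  rw [map_mul, map_mul, map_inv, rho_gt_pow, rho_ga_zpow, rho_gt_zpow]
  have := pow_ne_zero s (ne0 n)
  ext
  · simp only [Aff.mul_x, Aff.inv_x, Aff.inv_m, Aff.mul_m]
    rw [← hz, zpow_neg, zpow_natCast]
    field_simp
    simp
  · simp only [Aff.mul_m, Aff.inv_m]
    ring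

/-- the linear equations at `k` -/
def Lin (n k : ℤ) (S : List (List L2)) : Prop :=
  ∃ r : ℚ, InD n r ∧ ∀ w ∈ S, tval n k (wdt w).2.1 * r + tval n k (wdt w).2.2 = 0

theorem sat_iff (S : List (List L2)) : (∃ g : G n, ∀ w ∈ S, val (γ0 n) g w = 1) ↔
    ∃ k : ℤ, (∀ w ∈ S, (wdt w).1.1 + (wdt w).1.2 * k = 0) ∧ Lin n k S := by
  constructor
  · rintro ⟨g, hg⟩
    refine ⟨(rho n g).m, fun w hw => ?_, (rho n g).x, inD_of n g, fun w hw => ?_⟩
    · exact ((val_iff n g _ _ rfl w).1 (hg w hw)).2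
    · exact ((val_iff n g _ _ rfl w).1 (hg w hw)).1
  · rintro ⟨k, h1, r, hr, h2⟩
    obtain ⟨g, hg⟩ := exists_rho n hr k
    exact ⟨g, fun w hw => (val_iff n g r k hg w).2 ⟨h2 w hw, h1 w hw⟩⟩

end

/-- a bound for the lengths -/
def Lb (S : List (List L2)) : ℕ := S.flatten.length + 1

/-- the bound for the exponent -/
def Kb (n : ℤ) (S : List (List L2)) : ℕ := K0 (Lb S * n.natAbs ^ (2 * Lb S)) (2 * Lb S)

theorem len_le {S : List (List L2)} {w : List L2} (hw : w ∈ S) : w.length ≤ Lb S := by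
  unfold Lb
  have := (List.sublist_flatten_of_mem hw).length_le
  omega

theorem natAbs_pos' {n : ℤ} (hn : 2 ≤ |n|) : 0 < n.natAbs := by
  apply Int.natAbs_pos.2
  rintro rfl
  norm_num at hn

theorem Lb_le_Kb {n : ℤ} (hn : 2 ≤ |n|) (S : List (List L2)) : Lb S ≤ Kb n S := by
  have h1 : 1 ≤ n.natAbs ^ (2 * Lb S) := Nat.one_le_pow _ _ (natAbs_pos' hn)
  have h2 : Lb S ≤ Lb S * n.natAbs ^ (2 * Lb S) := Nat.le_mul_of_pos_right _ h1
  refine h2.trans ?_
  unfold Kb K0 K1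
  rw [add_assoc, add_assoc]
  exact Nat.le_add_right _ _

theorem lin_nat {n : ℤ} (hn : 2 ≤ |n|) {ι : Type} (A B : ι → List Tm) (L : ℕ) (hL : 1 ≤ L)
    (hA : ∀ i, TB L (A i)) (hB : ∀ i, TB L (B i))
    (h : ∃ k : ℕ, ∃ r : ℚ, InD n r ∧ ∀ i, tval n k (A i) * r + tval n k (B i) = 0) :
    ∃ k : ℕ, k ≤ K0 (L * n.natAbs ^ (2 * L)) (2 * L) ∧ ∃ r : ℚ, InD n r ∧
      ∀ i, tval n k (A i) * r + tval n k (B i) = 0 := by
  have hn0 : n ≠ 0 := by rintro rfl; norm_num at hn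
  have hq : (n : ℚ) ≠ 0 := by exact_mod_cast hn0
  have key : ∀ (k : ℕ) (r : ℚ) (i : ι), tval n k (A i) * r + tval n k (B i) = 0 ↔
      (((pol n L (A i)).eval (n ^ k) : ℤ) : ℚ) * r +
        (((pol n L (B i)).eval (n ^ k) : ℤ) : ℚ) = 0 := by
    intro k r i
    rw [pol_eval hn0 k (hA i), pol_eval hn0 k (hB i)]
    have h1 : (n : ℚ) ^ ((L : ℤ) + L * k) ≠ 0 := zpow_ne_zero _ hq
    constructor
    · intro h
      linear_combination ((n : ℚ) ^ ((L : ℤ) + L * k)) * h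
    · intro h
      have h2 : (n : ℚ) ^ ((L : ℤ) + L * k) * (tval n k (A i) * r + tval n k (B i)) = 0 := by
        linear_combination h
      exact (mul_eq_zero.1 h2).resolve_left h1
  have hcast : ((L * n.natAbs ^ (2 * L) : ℕ) : ℤ) = L * |n| ^ (2 * L) := by
    push_cast [Int.natCast_natAbs]; ring
  have h1 := bound hn (fun i => pol n L (A i)) (fun i => pol n L (B i))
    (L * n.natAbs ^ (2 * L)) (2 * L) (by
      have : 1 ≤ n.natAbs ^ (2 * L) := Nat.one_le_pow _ _ (natAbs_pos' hn)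
      exact hL.trans (Nat.le_mul_of_pos_right _ this))
    (fun i => pol_deg n (hB i)) (fun i => by rw [hcast]; exact pol_nrm (by omega) (hA i))
    (fun i => by rw [hcast]; exact pol_nrm (by omega) (hB i))
    (by
      obtain ⟨k, r, hr, h⟩ := h
      exact ⟨k, r, hr, fun i => (key k r i).1 (h i)⟩)
  obtain ⟨k, hk, r, hr, h⟩ := h1
  exact ⟨k, hk, r, hr, fun i => (key k r i).2 (h i)⟩

theorem lin_bound {n : ℤ} (hn : 2 ≤ |n|) (S : List (List L2)) (h : ∃ k : ℤ, Lin n k S) :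
    ∃ k : ℤ, |k| ≤ Kb n S ∧ Lin n k S := by
  obtain ⟨k, r, hr, h⟩ := h
  have hb1 : ∀ w : {w // w ∈ S}, TB (Lb S) (wdt w.1).2.1 := fun w =>
    (wdt_bd w.1).2.2.1.mono (len_le w.2)
  have hb2 : ∀ w : {w // w ∈ S}, TB (Lb S) (wdt w.1).2.2 := fun w =>
    (wdt_bd w.1).2.2.2.mono (len_le w.2)
  rcases le_total 0 k with hk | hk
  · obtain ⟨m, rfl⟩ := Int.eq_ofNat_of_zero_le hk
    obtain ⟨k', hk', r', hr', h'⟩ := lin_nat hn (fun w : {w // w ∈ S} => (wdt w.1).2.1)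
      (fun w => (wdt w.1).2.2) (Lb S) (by unfold Lb; omega) hb1 hb2
      ⟨m, r, hr, fun w => h w.1 w.2⟩
    refine ⟨k', ?_, r', hr', fun w hw => h' ⟨w, hw⟩⟩
    rw [abs_of_nonneg (by positivity)]
    exact_mod_cast hk'
  · obtain ⟨m, hm⟩ := Int.eq_ofNat_of_zero_le (neg_nonneg.2 hk)
    have hkm : k = -(m : ℤ) := by omega
    obtain ⟨k', hk', r', hr', h'⟩ := lin_nat hn (fun w : {w // w ∈ S} => ngt (wdt w.1).2.1)
      (fun w => ngt (wdt w.1).2.2) (Lb S) (by unfold Lb; omega) (fun w => (hb1 w).ngt)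
      (fun w => (hb2 w).ngt) ⟨m, r, hr, fun w => by
        rw [tval_ngt, tval_ngt, ← hkm]; exact h w.1 w.2⟩
    refine ⟨-(k' : ℤ), ?_, r', hr', fun w hw => ?_⟩
    · rw [abs_neg, abs_of_nonneg (by positivity)]
      exact_mod_cast hk'
    · have := h' ⟨w, hw⟩
      rwa [tval_ngt, tval_ngt] at this

theorem all_bound {n : ℤ} (hn : 2 ≤ |n|) (S : List (List L2))
    (h : ∃ k : ℤ, (∀ w ∈ S, (wdt w).1.1 + (wdt w).1.2 * k = 0) ∧ Lin n k S) :
    ∃ k : ℤ, |k| ≤ Kb n S ∧ (∀ w ∈ S, (wdt w).1.1 + (wdt w).1.2 * k = 0) ∧ Lin n k S := by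
  by_cases hv : ∀ w ∈ S, (wdt w).1.2 = 0
  · obtain ⟨k, h1, h2⟩ := h
    obtain ⟨k', hk', h3⟩ := lin_bound hn S ⟨k, h2⟩
    refine ⟨k', hk', fun w hw => ?_, h3⟩
    have := h1 w hw
    rw [hv w hw] at this ⊢
    linarith
  · push Not at hv
    obtain ⟨w, hw, hv⟩ := hv
    obtain ⟨k, h1, h2⟩ := h
    refine ⟨k, ?_, h1, h2⟩
    have h3 := h1 w hw
    have h4 := (wdt_bd w).1
    have h5 : |(wdt w).1.2 * k| = |(wdt w).1.1| := by
      rw [← abs_neg ((wdt w).1.1)]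
      congr 1
      linarith
    rw [abs_mul] at h5
    have h6 : 1 ≤ |(wdt w).1.2| := Int.one_le_abs hv
    have h7 : |k| ≤ |(wdt w).1.2| * |k| := le_mul_of_one_le_left (abs_nonneg k) h6
    have h8 := len_le hw
    have h9 := Lb_le_Kb hn S
    have h10 : (w.length : ℤ) ≤ Kb n S := by exact_mod_cast h8.trans h9
    linarith

theorem dvd_pow_natAbs {n a b : ℤ} {s : ℕ} (h : a ∣ n ^ s * b) (ha : a ≠ 0) :
    a ∣ n ^ a.natAbs * b := by
  have h1 : Nat.gcd a.natAbs (n ^ s).natAbs ∣ (n ^ a.natAbs).natAbs := by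
    rw [Nat.dvd_iff_prime_pow_dvd_dvd]
    intro p j hp hj
    rcases Nat.eq_zero_or_pos j with hj0 | hj0
    · rw [hj0, pow_zero]; exact one_dvd _
    have hga : p ^ j ∣ a.natAbs := hj.trans (Nat.gcd_dvd_left _ _)
    have hgn : p ^ j ∣ (n ^ s).natAbs := hj.trans (Nat.gcd_dvd_right _ _)
    have hpn : p ∣ n.natAbs := by
      have h1 : p ∣ p ^ j := dvd_pow_self p (by omega)
      have h2 := h1.trans hgn
      rw [Int.natAbs_pow] at h2
      exact hp.dvd_of_dvd_pow h2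
    have h3 : p ^ j ≤ a.natAbs := Nat.le_of_dvd (Int.natAbs_pos.2 ha) hga
    have h4 : j < p ^ j := Nat.lt_pow_self hp.one_lt
    rw [Int.natAbs_pow]
    exact (pow_dvd_pow_of_dvd hpn j).trans (pow_dvd_pow _ (by omega))
  have h2 : a.natAbs ∣ (n ^ s).natAbs * b.natAbs := by
    rw [← Int.natAbs_mul]
    exact Int.natAbs_dvd_natAbs.2 h
  have h3 : a.natAbs ∣ Nat.gcd a.natAbs (n ^ s).natAbs * b.natAbs :=
    (Nat.dvd_gcd_mul_iff_dvd_mul).2 h2
  have h4 : a.natAbs ∣ (n ^ a.natAbs).natAbs * b.natAbs := h3.trans (Nat.mul_dvd_mul_right h1 _)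
  rw [← Int.natAbs_mul] at h4
  exact Int.natAbs_dvd_natAbs.1 h4

/-- the integer test for the linear equations -/
def Tst (n C k : ℤ) (S : List (List L2)) : Prop :=
  (∀ w ∈ S, zval n C k (wdt w).2.1 ∣
    n ^ (zval n C k (wdt w).2.1).natAbs * zval n C k (wdt w).2.2) ∧
  ∀ w ∈ S, ∀ w' ∈ S, zval n C k (wdt w).2.1 * zval n C k (wdt w').2.2 =
    zval n C k (wdt w').2.1 * zval n C k (wdt w).2.2

theorem lin_iff {n : ℤ} (hn : n ≠ 0) (S : List (List L2)) {k C : ℤ}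
    (hC : (Lb S : ℤ) * (1 + |k|) ≤ C) : Lin n k S ↔ Tst n C k S := by
  have hq : (n : ℚ) ≠ 0 := by exact_mod_cast hn
  have hCq : (n : ℚ) ^ C ≠ 0 := zpow_ne_zero _ hq
  have e1 : ∀ w ∈ S, (zval n C k (wdt w).2.1 : ℚ) = (n : ℚ) ^ C * tval n k (wdt w).2.1 :=
    fun w hw => zval_eq hn hC ((wdt_bd w).2.2.1.mono (len_le hw))
  have e2 : ∀ w ∈ S, (zval n C k (wdt w).2.2 : ℚ) = (n : ℚ) ^ C * tval n k (wdt w).2.2 :=
    fun w hw => zval_eq hn hC ((wdt_bd w).2.2.2.mono (len_le hw))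
  have e3 : ∀ w ∈ S, ∀ r : ℚ, tval n k (wdt w).2.1 * r + tval n k (wdt w).2.2 = 0 ↔
      (zval n C k (wdt w).2.1 : ℚ) * r + (zval n C k (wdt w).2.2 : ℚ) = 0 := by
    intro w hw r
    rw [e1 w hw, e2 w hw]
    constructor
    · intro h
      linear_combination ((n : ℚ) ^ C) * h
    · intro h
      have h2 : (n : ℚ) ^ C * (tval n k (wdt w).2.1 * r + tval n k (wdt w).2.2) = 0 := by
        linear_combination h
      exact (mul_eq_zero.1 h2).resolve_left hCq
  constructor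
  · rintro ⟨r, ⟨s, z, hz⟩, h⟩
    refine ⟨fun w hw => ?_, fun w hw w' hw' => ?_⟩
    · have h1 := (e3 w hw r).1 (h w hw)
      have h2 : zval n C k (wdt w).2.1 * -z = n ^ s * zval n C k (wdt w).2.2 := by
        have : ((zval n C k (wdt w).2.1 * -z : ℤ) : ℚ) =
            ((n ^ s * zval n C k (wdt w).2.2 : ℤ) : ℚ) := by
          push_cast
          rw [← hz]
          linear_combination (-((n : ℚ) ^ s)) * h1
        exact_mod_cast this
      by_cases h0 : zval n C k (wdt w).2.1 = 0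
      · rw [h0] at h2 ⊢
        rw [zero_mul] at h2
        have h3 : zval n C k (wdt w).2.2 = 0 :=
          (mul_eq_zero.1 h2.symm).resolve_left (pow_ne_zero _ hn)
        rw [h3, mul_zero]
      · exact dvd_pow_natAbs ⟨_, h2.symm⟩ h0
    · have h1 := (e3 w hw r).1 (h w hw)
      have h2 := (e3 w' hw' r).1 (h w' hw')
      have : ((zval n C k (wdt w).2.1 * zval n C k (wdt w').2.2 : ℤ) : ℚ) =
          ((zval n C k (wdt w').2.1 * zval n C k (wdt w).2.2 : ℤ) : ℚ) := by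
        push_cast
        linear_combination (zval n C k (wdt w).2.1 : ℚ) * h2 -
          (zval n C k (wdt w').2.1 : ℚ) * h1
      exact_mod_cast this
  · rintro ⟨h1, h2⟩
    by_cases h0 : ∀ w ∈ S, zval n C k (wdt w).2.1 = 0
    · refine ⟨0, ⟨0, 0, by simp⟩, fun w hw => (e3 w hw 0).2 ?_⟩
      have h3 := h1 w hw
      rw [h0 w hw] at h3 ⊢
      rw [Int.natAbs_zero, pow_zero, one_mul] at h3
      rw [zero_dvd_iff.1 h3]
      simp
    · push Not at h0
      obtain ⟨w0, hw0, h0⟩ := h0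
      obtain ⟨q, hq'⟩ := h1 w0 hw0
      have h0q : (zval n C k (wdt w0).2.1 : ℚ) ≠ 0 := by exact_mod_cast h0
      refine ⟨-(zval n C k (wdt w0).2.2 : ℚ) / (zval n C k (wdt w0).2.1 : ℚ),
        ⟨(zval n C k (wdt w0).2.1).natAbs, -q, ?_⟩, fun w hw => (e3 w hw _).2 ?_⟩
      · have h3 : (n : ℚ) ^ (zval n C k (wdt w0).2.1).natAbs * (zval n C k (wdt w0).2.2 : ℚ) =
            (zval n C k (wdt w0).2.1 : ℚ) * (q : ℚ) := by exact_mod_cast hq'
        rw [mul_div_assoc', div_eq_iff h0q]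
        push_cast
        linear_combination (-1 : ℚ) * h3
      · have h3 : (zval n C k (wdt w).2.1 : ℚ) * (zval n C k (wdt w0).2.2 : ℚ) =
            (zval n C k (wdt w0).2.1 : ℚ) * (zval n C k (wdt w).2.2 : ℚ) := by
          exact_mod_cast h2 w hw w0 hw0
        field_simp
        linear_combination (-1 : ℚ) * h3

/-- Solvability of a finite system of equations in one variable over `BS(1,n)` as a bounded
search. -/
theorem sat_iff_bounded (n : ℤ) [Hyp n] (S : List (List L2)) :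
    (∃ g : G n, ∀ w ∈ S, val (γ0 n) g w = 1) ↔
    ∃ j < 2 * Kb n S + 1, (∀ w ∈ S, (wdt w).1.1 + (wdt w).1.2 * ((j : ℤ) - Kb n S) = 0) ∧
      Tst n ((Lb S : ℤ) * (1 + Kb n S)) ((j : ℤ) - Kb n S) S := by
  have hn2 : 2 ≤ |n| := (inferInstance : Hyp n).out
  have hn : n ≠ 0 := by rintro rfl; norm_num at hn2
  rw [sat_iff]
  have hCC : ∀ k : ℤ, |k| ≤ Kb n S → (Lb S : ℤ) * (1 + |k|) ≤ (Lb S : ℤ) * (1 + Kb n S) :=
    fun k hk => mul_le_mul_of_nonneg_left (by linarith) (by positivity)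
  constructor
  · intro h
    obtain ⟨k, hk, h1, h2⟩ := all_bound hn2 S h
    have hk' := abs_le.1 hk
    refine ⟨(k + Kb n S).toNat, by omega, ?_⟩
    have e : (((k + Kb n S).toNat : ℕ) : ℤ) - Kb n S = k := by omega
    rw [e]
    exact ⟨h1, (lin_iff hn S (hCC k hk)).1 h2⟩
  · rintro ⟨j, hj, h1, h2⟩
    have hk : |(j : ℤ) - Kb n S| ≤ Kb n S := by
      rw [abs_le]; constructor <;> omega
    exact ⟨_, h1, (lin_iff hn S (hCC _ hk)).2 h2⟩

end Pool.Agent.T6.H93.BS
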