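import Pool.Agent.T6.H93.BS.Bound
import Pool.Agent.H747BS.A1

/-! Sums of terms `ε n ^ (u + v k)` and the evaluation of one-variable words in `BS(1,n)`. -/

set_option autoImplicit false

namespace Pool.Agent.T6.H93.BS

open Polynomial Pool.Agent.H747BS

/-- a term `ε n ^ (u + v k)` is the triple `(ε, u, v)` -/
abbrev Tm := ℤ × ℤ × ℤ

/-- the value of a sum of terms -/
noncomputable def tval (n k : ℤ) (T : List Tm) : ℚ :=
  (T.map fun t => (t.1 : ℚ) * (n : ℚ) ^ (t.2.1 + t.2.2 * k)).sum

/-- the value of a sum of terms times `n ^ C` -/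
def zval (n C k : ℤ) (T : List Tm) : ℤ :=
  (T.map fun t => t.1 * n ^ (t.2.1 + t.2.2 * k + C).toNat).sum

/-- the polynomial of a sum of terms -/
noncomputable def pol (n : ℤ) (L : ℕ) (T : List Tm) : ℤ[X] :=
  (T.map fun t => C (t.1 * n ^ (t.2.1 + (L : ℤ)).toNat) * X ^ (t.2.2 + (L : ℤ)).toNat).sum

/-- multiply by `n ^ (a + b k)` -/
def shf (a b : ℤ) (T : List Tm) : List Tm := T.map fun t => (t.1, t.2.1 + a, t.2.2 + b)

/-- replace `k` by `-k` -/
def ngt (T : List Tm) : List Tm := T.map fun t => (t.1, t.2.1, -t.2.2)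

/-- the terms are bounded by `L` -/
def TB (L : ℕ) (T : List Tm) : Prop :=
  T.length ≤ L ∧ ∀ t ∈ T, |t.1| ≤ 1 ∧ |t.2.1| ≤ L ∧ |t.2.2| ≤ L

theorem TB.ngt {L : ℕ} {T : List Tm} (h : TB L T) : TB L (ngt T) := by
  refine ⟨by simpa [BS.ngt] using h.1, fun t ht => ?_⟩
  simp only [BS.ngt, List.mem_map] at ht
  obtain ⟨t', ht', rfl⟩ := ht
  have := h.2 t' ht'
  simpa using this

theorem TB.shf {L : ℕ} {T : List Tm} (h : TB L T) (a b : ℤ) (ha : |a| ≤ 1) (hb : |b| ≤ 1) :
    TB (L + 1) (shf a b T) := by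
  refine ⟨by simpa [BS.shf] using h.1.trans (Nat.le_succ L), fun t ht => ?_⟩
  simp only [BS.shf, List.mem_map] at ht
  obtain ⟨t', ht', rfl⟩ := ht
  obtain ⟨h1, h2, h3⟩ := h.2 t' ht'
  refine ⟨h1, ?_, ?_⟩
  · exact (abs_add_le _ _).trans (by push_cast; linarith)
  · exact (abs_add_le _ _).trans (by push_cast; linarith)

theorem TB.mono {L L' : ℕ} {T : List Tm} (h : TB L T) (hL : L ≤ L') : TB L' T := by
  have hL' : (L : ℤ) ≤ L' := by exact_mod_cast hL
  refine ⟨h.1.trans hL, fun t ht => ?_⟩
  obtain ⟨h1, h2, h3⟩ := h.2 t ht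
  exact ⟨h1, h2.trans hL', h3.trans hL'⟩

theorem tval_ngt (n k : ℤ) (T : List Tm) : tval n k (ngt T) = tval n (-k) T := by
  unfold tval ngt
  rw [List.map_map]
  congr 1
  refine List.map_congr_left fun t _ => ?_
  simp only [Function.comp]
  congr 2
  ring

theorem tval_shf {n : ℤ} (hn : n ≠ 0) (k a b : ℤ) (T : List Tm) :
    tval n k (shf a b T) = (n : ℚ) ^ (a + b * k) * tval n k T := by
  have hq : (n : ℚ) ≠ 0 := by exact_mod_cast hn
  unfold tval shf
  rw [List.map_map, ← List.sum_map_mul_left]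
  congr 1
  refine List.map_congr_left fun t _ => ?_
  simp only [Function.comp]
  rw [show t.2.1 + a + (t.2.2 + b) * k = (a + b * k) + (t.2.1 + t.2.2 * k) by ring,
    zpow_add₀ hq]
  ring

theorem tval_append (n k : ℤ) (S T : List Tm) : tval n k (S ++ T) = tval n k S + tval n k T := by
  unfold tval
  rw [List.map_append, List.sum_append]

theorem zval_eq {n : ℤ} (hn : n ≠ 0) {L : ℕ} {k C : ℤ} (hC : (L : ℤ) * (1 + |k|) ≤ C)
    {T : List Tm} (hT : TB L T) : (zval n C k T : ℚ) = (n : ℚ) ^ C * tval n k T := by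
  have hq : (n : ℚ) ≠ 0 := by exact_mod_cast hn
  unfold zval tval
  rw [← List.sum_map_mul_left]
  push_cast
  rw [List.map_map]
  congr 1
  refine List.map_congr_left fun t ht => ?_
  obtain ⟨h1, h2, h3⟩ := hT.2 t ht
  have h4 : 0 ≤ t.2.1 + t.2.2 * k + C := by
    have h5 : |t.2.2 * k| ≤ L * |k| := by
      rw [abs_mul]
      exact mul_le_mul_of_nonneg_right h3 (abs_nonneg k)
    have h6 := neg_abs_le t.2.1
    have h7 := neg_abs_le (t.2.2 * k)
    nlinarith
  simp only [Function.comp]
  push_cast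
  have h5 : (n : ℚ) ^ (t.2.1 + t.2.2 * k + C).toNat = (n : ℚ) ^ (t.2.1 + t.2.2 * k + C) := by
    rw [← zpow_natCast, Int.toNat_of_nonneg h4]
  rw [h5, zpow_add₀ hq]
  ring

theorem pol_eval {n : ℤ} (hn : n ≠ 0) {L : ℕ} (k : ℕ) {T : List Tm} (hT : TB L T) :
    (((pol n L T).eval (n ^ k) : ℤ) : ℚ) = (n : ℚ) ^ ((L : ℤ) + L * k) * tval n k T := by
  have hq : (n : ℚ) ≠ 0 := by exact_mod_cast hn
  have h0 : (pol n L T).eval (n ^ k) =
      (T.map fun t => t.1 * n ^ (t.2.1 + (L : ℤ)).toNat *
        (n ^ k) ^ (t.2.2 + (L : ℤ)).toNat).sum := by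
    unfold pol
    have := map_list_sum (Polynomial.evalRingHom (n ^ k))
      (T.map fun t => C (t.1 * n ^ (t.2.1 + (L : ℤ)).toNat) * X ^ (t.2.2 + (L : ℤ)).toNat)
    rw [Polynomial.coe_evalRingHom] at this
    rw [this, List.map_map]
    congr 1
    refine List.map_congr_left fun t _ => ?_
    simp only [Function.comp, Polynomial.eval_mul, Polynomial.eval_C, Polynomial.eval_pow,
      Polynomial.eval_X]
  rw [h0]
  unfold tval
  rw [← List.sum_map_mul_left]
  push_cast
  rw [List.map_map]
  congr 1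
  refine List.map_congr_left fun t ht => ?_
  obtain ⟨h1, h2, h3⟩ := hT.2 t ht
  have h6 := neg_abs_le t.2.1
  have h7 := neg_abs_le t.2.2
  simp only [Function.comp]
  push_cast
  have h5 : (n : ℚ) ^ (t.2.1 + (L : ℤ)).toNat = (n : ℚ) ^ (t.2.1 + (L : ℤ)) := by
    rw [← zpow_natCast, Int.toNat_of_nonneg (by linarith)]
  have h8 : ((n : ℚ) ^ k) ^ (t.2.2 + (L : ℤ)).toNat = (n : ℚ) ^ ((k : ℤ) * (t.2.2 + L)) := by
    rw [← zpow_natCast (((n : ℚ) ^ k)), Int.toNat_of_nonneg (by linarith), ← zpow_natCast,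
      ← zpow_mul]
  rw [h5, h8, mul_assoc, ← zpow_add₀ hq, mul_comm ((n : ℚ) ^ ((L : ℤ) + L * k)), mul_assoc,
    ← zpow_add₀ hq]
  congr 2
  ring

theorem nrm_list_sum_le (l : List ℤ[X]) : nrm l.sum ≤ (l.map nrm).sum := by
  induction l with
  | nil => simp
  | cons a l ih =>
    rw [List.sum_cons, List.map_cons, List.sum_cons]
    exact (nrm_add_le _ _).trans (by linarith)

theorem nrm_term (a : ℤ) (m : ℕ) : nrm (C a * X ^ m) = |a| := by
  rw [nrm_C_mul]
  have : nrm (X ^ m * (1 : ℤ[X])) = 1 := by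
    rw [nrm_X_pow_mul]
    have h := nrm_eq (1 : ℤ[X]) {0} (by
      intro i hi
      rw [Polynomial.mem_support_iff, Polynomial.coeff_one] at hi
      by_contra h0
      rw [Finset.mem_singleton] at h0
      exact hi (if_neg (fun h => h0 h)))
    rw [h]; simp
  rw [mul_one] at this
  rw [this, mul_one]

theorem pol_nrm {n : ℤ} (hn : 1 ≤ |n|) {L : ℕ} {T : List Tm} (hT : TB L T) :
    nrm (pol n L T) ≤ L * |n| ^ (2 * L) := by
  unfold pol
  refine (nrm_list_sum_le _).trans ?_
  rw [List.map_map]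
  have h1 : ∀ x ∈ T.map (nrm ∘ fun t : Tm =>
      C (t.1 * n ^ (t.2.1 + (L : ℤ)).toNat) * X ^ (t.2.2 + (L : ℤ)).toNat), x ≤ |n| ^ (2 * L) := by
    intro x hx
    rw [List.mem_map] at hx
    obtain ⟨t, ht, rfl⟩ := hx
    obtain ⟨h1, h2, h3⟩ := hT.2 t ht
    simp only [Function.comp]
    rw [nrm_term, abs_mul, abs_pow]
    have h4 : |n| ^ (t.2.1 + (L : ℤ)).toNat ≤ |n| ^ (2 * L) := by
      refine pow_le_pow_right₀ hn ?_
      have := le_abs_self t.2.1
      omega
    have h5 : 0 ≤ |n| ^ (t.2.1 + (L : ℤ)).toNat := by positivity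
    nlinarith
  have h2 := List.sum_le_card_nsmul _ _ h1
  refine h2.trans ?_
  rw [List.length_map, nsmul_eq_mul]
  have : (T.length : ℤ) ≤ L := by exact_mod_cast hT.1
  exact mul_le_mul_of_nonneg_right this (by positivity)

theorem deg_list_sum_le (m : ℕ) (l : List ℤ[X]) (h : ∀ p ∈ l, p.natDegree ≤ m) :
    l.sum.natDegree ≤ m := by
  induction l with
  | nil => simp
  | cons a l ih =>
    rw [List.sum_cons]
    refine (Polynomial.natDegree_add_le _ _).trans (max_le (h a (by simp)) (ih fun p hp => ?_))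
    exact h p (by simp [hp])

theorem pol_deg (n : ℤ) {L : ℕ} {T : List Tm} (hT : TB L T) :
    (pol n L T).natDegree ≤ 2 * L := by
  unfold pol
  refine deg_list_sum_le _ _ ?_
  intro p hp
  rw [List.mem_map] at hp
  obtain ⟨t, ht, rfl⟩ := hp
  obtain ⟨h1, h2, h3⟩ := hT.2 t ht
  refine (Polynomial.natDegree_C_mul_X_pow_le _ _).trans ?_
  have := le_abs_self t.2.2
  omega

/-! ### Words -/

/-- letters: the generators `a`, `t`, the variable, and their inverses -/
abbrev L2 := (Fin 2 ⊕ Unit) × Bool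

/-- the sign of a letter -/
def sg (b : Bool) : ℤ := if b then 1 else -1

/-- exponent of `t` -/
def du : L2 → ℤ
  | (Sum.inl 0, _) => 0
  | (Sum.inl 1, b) => sg b
  | (Sum.inr _, _) => 0

/-- exponent of the variable -/
def dv : L2 → ℤ
  | (Sum.inl _, _) => 0
  | (Sum.inr _, b) => sg b

/-- new terms with the unknown -/
def nA : L2 → List Tm
  | (Sum.inl _, _) => []
  | (Sum.inr _, true) => [(1, 0, 0)]
  | (Sum.inr _, false) => [(-1, 0, -1)]

/-- new terms without the unknown -/
def nB : L2 → List Tm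
  | (Sum.inl 0, b) => [(sg b, 0, 0)]
  | (Sum.inl 1, _) => []
  | (Sum.inr _, _) => []

/-- the data of a word: the exponents and the terms with and without the unknown -/
abbrev Dt := (ℤ × ℤ) × (List Tm × List Tm)

/-- one step -/
def stp (l : L2) (s : Dt) : Dt :=
  ((s.1.1 + du l, s.1.2 + dv l), (nA l ++ shf (du l) (dv l) s.2.1, nB l ++ shf (du l) (dv l) s.2.2))

/-- the data of a word -/
def wdt (w : List L2) : Dt := w.foldr stp ((0, 0), ([], []))

theorem wdt_cons (l : L2) (w : List L2) : wdt (l :: w) = stp l (wdt w) := rfl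

theorem wdt_bd (w : List L2) : |(wdt w).1.1| ≤ w.length ∧ |(wdt w).1.2| ≤ w.length ∧
    TB w.length (wdt w).2.1 ∧ TB w.length (wdt w).2.2 := by
  induction w with
  | nil => simp [wdt, TB]
  | cons l w ih =>
    obtain ⟨h1, h2, h3, h4⟩ := ih
    have hu : |du l| ≤ 1 := by
      rcases l with ⟨i | i, b⟩
      · fin_cases i <;> cases b <;> simp [du, sg]
      · simp [du]
    have hv : |dv l| ≤ 1 := by
      rcases l with ⟨i | i, b⟩ <;> cases b <;> simp [dv, sg]
    rw [wdt_cons, List.length_cons]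
    refine ⟨?_, ?_, ?_, ?_⟩
    · exact (abs_add_le _ _).trans (by push_cast; linarith)
    · exact (abs_add_le _ _).trans (by push_cast; linarith)
    · have h5 := h3.shf (du l) (dv l) hu hv
      have h6 : (nA l).length ≤ 1 := by
        rcases l with ⟨i | i, b⟩ <;> cases b <;> simp [nA]
      refine ⟨?_, fun t ht => ?_⟩
      · have := h3.1
        simp only [stp, List.length_append, shf, List.length_map]
        omega
      · simp only [stp, List.mem_append] at ht
        rcases ht with ht | ht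
        · rcases l with ⟨i | i, b⟩
          · simp [nA] at ht
          · cases b
            · simp only [nA, List.mem_singleton] at ht
              subst ht
              simp
              positivity
            · simp only [nA, List.mem_singleton] at ht
              subst ht
              simp
              positivity
        · exact h5.2 t ht
    · have h5 := h4.shf (du l) (dv l) hu hv
      have h6 : (nB l).length ≤ 1 := by
        rcases l with ⟨i | i, b⟩
        · fin_cases i <;> simp [nB]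
        · simp [nB]
      refine ⟨?_, fun t ht => ?_⟩
      · have := h4.1
        simp only [stp, List.length_append, shf, List.length_map]
        omega
      · simp only [stp, List.mem_append] at ht
        rcases ht with ht | ht
        · rcases l with ⟨i | i, b⟩
          · fin_cases i
            · simp only [nB, List.mem_singleton] at ht
              subst ht
              cases b <;> simp [sg] <;> positivity
            · simp [nB] at ht
          · simp [nB] at ht
        · exact h5.2 t ht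

variable (n : ℤ) [Hyp n]

/-- the affine value of a letter when the variable has the value `(r, k)` -/
noncomputable def lv (r : ℚ) (k : ℤ) (l : L2) : Aff n :=
  ⟨tval n k (nA l) * r + tval n k (nB l), du l + dv l * k⟩

theorem prod_lv (r : ℚ) (k : ℤ) (w : List L2) :
    (w.map (lv n r k)).prod = ⟨tval n k (wdt w).2.1 * r + tval n k (wdt w).2.2,
      (wdt w).1.1 + (wdt w).1.2 * k⟩ := by
  have hn : n ≠ 0 := by
    have := (inferInstance : Hyp n).out
    rintro rfl
    norm_num at this
  induction w with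
  | nil =>
    ext
    · simp [wdt, tval]
    · simp [wdt]
  | cons l w ih =>
    rw [List.map_cons, List.prod_cons, ih, wdt_cons]
    ext
    · simp only [Aff.mul_x, lv, stp]
      rw [tval_append, tval_append, tval_shf hn, tval_shf hn]
      ring
    · simp only [Aff.mul_m, lv, stp]
      ring

theorem lv_inv (r : ℚ) (k : ℤ) (i : Fin 2 ⊕ Unit) : lv n r k (i, false) = (lv n r k (i, true))⁻¹ := by
  have hq := ne0 n
  rcases i with i | i
  · fin_cases i
    · ext <;> simp [lv, tval, nA, nB, du, dv, sg]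
    · ext <;> simp [lv, tval, nA, nB, du, dv, sg]
  · ext
    · simp [lv, tval, nA, nB, du, dv, sg]
    · simp [lv, tval, nA, nB, du, dv, sg]

theorem lift_eq (r : ℚ) (k : ℤ) (w : List L2) :
    FreeGroup.lift (fun i => lv n r k (i, true)) (FreeGroup.mk w) = (w.map (lv n r k)).prod := by
  rw [FreeGroup.lift_mk]
  congr 1
  refine List.map_congr_left fun l _ => ?_
  rcases l with ⟨i, b⟩
  cases b
  · rw [lv_inv]; rfl
  · rfl

end Pool.Agent.T6.H93.BS
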